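import Mathlib

/-!
Sets of integers moved by independent uniform random displacements: avoidance probabilities.
-/

set_option autoImplicit false

namespace Pool.Agent.Q268.DP

open Filter Finset MeasureTheory ProbabilityTheory
open scoped ENNReal Topology

/-- `X q`, `q = 0, 1, 2, …`, are independent, and `X q` is uniform on `{0, …, D q}`. -/
structure Disp {Ω : Type} [MeasurableSpace Ω] (μ : Measure Ω) (X : ℕ → Ω → ℕ) (D : ℕ → ℕ) : Prop where
  meas : ∀ q, Measurable (X q)
  indep : iIndepFun X μ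
  unif : ∀ q d, μ {ω | X q ω = d} = if d ≤ D q then ENNReal.ofReal (1 / ((D q : ℝ) + 1)) else 0

/-- the set of the displaced numbers `q + X q`, `q` in `P` -/
def moved {Ω : Type} (P : ℕ → Prop) (X : ℕ → Ω → ℕ) (ω : Ω) : Set ℕ := {m | ∃ q, P q ∧ m = q + X q ω}

/-- the probability that `q` is moved into `A` -/
noncomputable def pr (D : ℕ → ℕ) (A : Finset ℕ) (q : ℕ) : ℝ :=
  ((A.filter (fun m => q ≤ m ∧ m ≤ q + D q)).card : ℝ) / ((D q : ℝ) + 1)

variable {Ω : Type} [MeasurableSpace Ω] {μ : Measure Ω} {X : ℕ → Ω → ℕ} {D : ℕ → ℕ}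

theorem pr_nonneg (D : ℕ → ℕ) (A : Finset ℕ) (q : ℕ) : 0 ≤ pr D A q := by
  unfold pr; positivity

theorem pr_le_one (D : ℕ → ℕ) (A : Finset ℕ) (q : ℕ) : pr D A q ≤ 1 := by
  unfold pr
  rw [div_le_one (by positivity)]
  have h : A.filter (fun m => q ≤ m ∧ m ≤ q + D q) ⊆ Icc q (q + D q) := by
    intro m hm
    rw [Finset.mem_filter] at hm
    exact Finset.mem_Icc.2 hm.2
  have h2 := Finset.card_le_card h
  rw [Nat.card_Icc] at h2
  have h3 : (A.filter (fun m => q ≤ m ∧ m ≤ q + D q)).card ≤ D q + 1 := by omega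
  exact_mod_cast h3

theorem pr_le (D : ℕ → ℕ) (A : Finset ℕ) (q : ℕ) : pr D A q ≤ A.card / ((D q : ℝ) + 1) := by
  unfold pr
  gcongr
  exact Finset.filter_subset _ _

theorem pr_union (D : ℕ → ℕ) {A B : Finset ℕ} (h : Disjoint A B) (q : ℕ) :
    pr D (A ∪ B) q = pr D A q + pr D B q := by
  unfold pr
  rw [Finset.filter_union, Finset.card_union_of_disjoint]
  · push_cast
    rw [add_div]
  · exact Finset.disjoint_filter_filter h

theorem pr_zero (D : ℕ → ℕ) {A : Finset ℕ} {q : ℕ} (h : ∀ m ∈ A, q + D q < m ∨ m < q) :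
    pr D A q = 0 := by
  unfold pr
  have : A.filter (fun m => q ≤ m ∧ m ≤ q + D q) = ∅ := by
    rw [Finset.filter_eq_empty_iff]
    intro m hm hc
    rcases h m hm with h | h <;> omega
  rw [this]
  simp

theorem meas_set (hX : Disp μ X D) (q : ℕ) (s : Set ℕ) : MeasurableSet {ω | X q ω ∈ s} :=
  (hX.meas q) (MeasurableSet.of_discrete)

theorem hit (hX : Disp μ X D) (A : Finset ℕ) (q : ℕ) :
    μ {ω | q + X q ω ∈ A} = ENNReal.ofReal (pr D A q) := by
  have hf : Measurable (fun ω => q + X q ω) := (hX.meas q).const_add q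
  have h1 := MeasureTheory.sum_measure_preimage_singleton (μ := μ) A (f := fun ω => q + X q ω)
    (fun y _ => hf (measurableSet_singleton y))
  have h2 : {ω | q + X q ω ∈ A} = (fun ω => q + X q ω) ⁻¹' (A : Set ℕ) := by
    ext ω; simp
  rw [h2, ← h1]
  have h3 : ∀ m ∈ A, μ ((fun ω => q + X q ω) ⁻¹' {m}) =
      if q ≤ m ∧ m ≤ q + D q then ENNReal.ofReal (1 / ((D q : ℝ) + 1)) else 0 := by
    intro m _
    by_cases hq : q ≤ m
    · have h4 : (fun ω => q + X q ω) ⁻¹' {m} = {ω | X q ω = m - q} := by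
        ext ω
        simp only [Set.mem_preimage, Set.mem_singleton_iff, Set.mem_ofPred_eq]
        omega
      rw [h4, hX.unif]
      by_cases h5 : m ≤ q + D q
      · rw [if_pos (by omega), if_pos ⟨hq, h5⟩]
      · rw [if_neg (by omega), if_neg (by tauto)]
    · have h4 : (fun ω => q + X q ω) ⁻¹' {m} = ∅ := by
        ext ω
        simp only [Set.mem_preimage, Set.mem_singleton_iff, Set.mem_empty_iff_false, iff_false]
        omega
      rw [h4, measure_empty, if_neg (by tauto)]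
  rw [Finset.sum_congr rfl h3, ← Finset.sum_filter, Finset.sum_const, nsmul_eq_mul]
  unfold pr
  rw [div_eq_mul_one_div (Finset.card _ : ℝ), ENNReal.ofReal_mul (by positivity), ENNReal.ofReal_natCast]

/-- the event that no element of `P` is moved into `A` -/
def Av (P : ℕ → Prop) (X : ℕ → Ω → ℕ) (A : Finset ℕ) : Set Ω := {ω | ∀ m ∈ A, m ∉ moved P X ω}

/-- the elements of `P` up to `N` -/
noncomputable def upto (P : ℕ → Prop) (N : ℕ) : Finset ℕ := by
  classical
  exact (range (N + 1)).filter (fun q => P q)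

theorem mem_upto {P : ℕ → Prop} {N q : ℕ} : q ∈ upto P N ↔ q ≤ N ∧ P q := by
  classical
  unfold upto
  rw [Finset.mem_filter, Finset.mem_range]
  constructor
  · rintro ⟨h1, h2⟩; exact ⟨by omega, h2⟩
  · rintro ⟨h1, h2⟩; exact ⟨by omega, h2⟩

omit [MeasurableSpace Ω] in
theorem Av_eq (P : ℕ → Prop) (X : ℕ → Ω → ℕ) {A : Finset ℕ} {N : ℕ} (hN : ∀ m ∈ A, m ≤ N) :
    Av P X A = ⋂ q ∈ upto P N, {ω | q + X q ω ∉ A} := by
  ext ω
  simp only [Av, moved, Set.mem_ofPred_eq, not_exists, not_and, Set.mem_iInter, mem_upto]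
  constructor
  · rintro h q ⟨-, hq⟩ hm
    exact h _ hm q hq rfl
  · intro h m hm q hq hmq
    have := hN m hm
    exact h q ⟨by omega, hq⟩ (hmq ▸ hm)

theorem meas_Av (hX : Disp μ X D) (P : ℕ → Prop) (A : Finset ℕ) : MeasurableSet (Av P X A) := by
  rw [Av_eq P X (N := A.sup id) (fun m hm => Finset.le_sup (f := id) hm)]
  refine Finset.measurableSet_biInter _ fun q _ => ?_
  exact (meas_set hX q {d | q + d ∉ A})

/-- the avoidance probability -/
theorem prob_Av (hX : Disp μ X D) (P : ℕ → Prop) {A : Finset ℕ} {N : ℕ} (hN : ∀ m ∈ A, m ≤ N) :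
    μ (Av P X A) = ENNReal.ofReal (∏ q ∈ upto P N, (1 - pr D A q)) := by
  have hP : IsProbabilityMeasure μ := hX.indep.isProbabilityMeasure
  rw [Av_eq P X hN]
  have h1 : μ (⋂ q ∈ upto P N, {ω | q + X q ω ∉ A}) = ∏ q ∈ upto P N, μ {ω | q + X q ω ∉ A} := by
    have h2 : ∀ q : ℕ, {ω | q + X q ω ∉ A} = X q ⁻¹' {d | q + d ∉ A} := fun q => rfl
    simp only [h2]
    exact hX.indep.measure_inter_preimage_eq_mul (upto P N) (fun q _ => MeasurableSet.of_discrete)
  rw [h1, ENNReal.ofReal_prod_of_nonneg (fun q _ => by linarith [pr_le_one D A q])]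
  refine Finset.prod_congr rfl fun q _ => ?_
  have h3 : {ω | q + X q ω ∉ A} = {ω | q + X q ω ∈ A}ᶜ := by
    ext ω; simp
  have h4 : MeasurableSet {ω | q + X q ω ∈ A} := meas_set hX q {d | q + d ∈ A}
  rw [h3, prob_compl_eq_one_sub h4, hit hX, ← ENNReal.ofReal_one, ENNReal.ofReal_sub _ (pr_nonneg D A q)]

/-- disjoint windows: negative correlation -/
theorem neg_corr (hX : Disp μ X D) (P : ℕ → Prop) {A B : Finset ℕ} (h : Disjoint A B) :
    μ (Av P X A ∩ Av P X B) ≤ μ (Av P X A) * μ (Av P X B) := by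
  have h1 : Av P X A ∩ Av P X B = Av P X (A ∪ B) := by
    ext ω
    simp only [Av, Set.mem_inter_iff, Set.mem_ofPred_eq, Finset.mem_union]
    constructor
    · rintro ⟨h1, h2⟩ m (hm | hm)
      · exact h1 m hm
      · exact h2 m hm
    · intro h
      exact ⟨fun m hm => h m (Or.inl hm), fun m hm => h m (Or.inr hm)⟩
  have hN : ∀ m ∈ A ∪ B, m ≤ (A ∪ B).sup id := fun m hm => Finset.le_sup (f := id) hm
  rw [h1, prob_Av hX P hN, prob_Av hX P (fun m hm => hN m (Finset.mem_union_left _ hm)),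
    prob_Av hX P (fun m hm => hN m (Finset.mem_union_right _ hm)), ← ENNReal.ofReal_mul
      (Finset.prod_nonneg fun q _ => by linarith [pr_le_one D A q]), ← Finset.prod_mul_distrib]
  apply ENNReal.ofReal_le_ofReal
  apply Finset.prod_le_prod
  · intro q _
    linarith [pr_le_one D (A ∪ B) q]
  · intro q _
    rw [pr_union D h]
    nlinarith [pr_nonneg D A q, pr_nonneg D B q]

end Pool.Agent.Q268.DP
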