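import Mathlib
import Pool.Agent.Q268.DP.Basic
import Pool.Agent.Q268.DP.Second

/-!
The largest gap of a set of integers, and the almost sure bounds for the largest gap of a displaced set.
-/

set_option autoImplicit false

namespace Pool.Agent.Q268.DP

open Filter Finset MeasureTheory ProbabilityTheory
open scoped ENNReal Topology

/-- the largest gap between consecutive elements of `S` whose smaller member is at most `x` -/
noncomputable def G (S : Set ℕ) (x : ℕ) : ℕ :=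
  sSup {g | ∃ n, Nat.nth (· ∈ S) n ≤ x ∧ g = Nat.nth (· ∈ S) (n + 1) - Nat.nth (· ∈ S) n}

theorem le_nth {S : Set ℕ} (hS : S.Infinite) (n : ℕ) : n ≤ Nat.nth (· ∈ S) n :=
  (Nat.nth_strictMono hS).le_apply

theorem G_bdd {S : Set ℕ} (hS : S.Infinite) (x : ℕ) :
    BddAbove {g | ∃ n, Nat.nth (· ∈ S) n ≤ x ∧ g = Nat.nth (· ∈ S) (n + 1) - Nat.nth (· ∈ S) n} := by
  refine ⟨(range (x + 1)).sup (fun n => Nat.nth (· ∈ S) (n + 1) - Nat.nth (· ∈ S) n), ?_⟩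
  rintro g ⟨n, hn, rfl⟩
  exact Finset.le_sup (f := fun n => Nat.nth (· ∈ S) (n + 1) - Nat.nth (· ∈ S) n)
    (Finset.mem_range.2 (by have := le_nth hS n; omega))

theorem G_ge {S : Set ℕ} (hS : S.Infinite) {x y h : ℕ} (hyx : y ≤ x) (hs : ∃ s ∈ S, s ≤ y)
    (hw : ∀ m ∈ Ioc y (y + h), m ∉ S) : h ≤ G S x := by
  classical
  have hS' : (Set.ofPred (fun x => x ∈ S)).Infinite := hS
  obtain ⟨s, hsS, hsy⟩ := hs
  have h1 : 1 ≤ Nat.count (· ∈ S) (y + 1) := by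
    have h2 : Nat.count (· ∈ S) (s + 1) ≤ Nat.count (· ∈ S) (y + 1) := Nat.count_monotone _ (by omega)
    have h3 : Nat.count (· ∈ S) (s + 1) = Nat.count (· ∈ S) s + 1 := by
      rw [Nat.count_succ, if_pos hsS]
    omega
  obtain ⟨k, hk⟩ : ∃ k, k + 1 = Nat.count (· ∈ S) (y + 1) := ⟨Nat.count (· ∈ S) (y + 1) - 1, by omega⟩
  have h3 : Nat.nth (· ∈ S) k < y + 1 := Nat.nth_lt_of_lt_count (by omega)
  have h4 : y + 1 ≤ Nat.nth (· ∈ S) (k + 1) := by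
    rw [hk]
    exact Nat.le_nth_count hS' (y + 1)
  have h5 : y + h < Nat.nth (· ∈ S) (k + 1) := by
    by_contra hcon
    push Not at hcon
    exact hw _ (Finset.mem_Ioc.2 ⟨by omega, hcon⟩) (Nat.nth_mem_of_infinite hS (k + 1))
  have h6 : Nat.nth (· ∈ S) (k + 1) - Nat.nth (· ∈ S) k ≤ G S x :=
    le_csSup (G_bdd hS x) ⟨k, by omega, rfl⟩
  omega

theorem G_le {S : Set ℕ} (hS : S.Infinite) {x : ℕ} {M : ℝ}
    (h : ∀ n, Nat.nth (· ∈ S) n ≤ x → ((Nat.nth (· ∈ S) (n + 1) : ℝ) - Nat.nth (· ∈ S) n) ≤ M)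
    (hM : 0 ≤ M) : (G S x : ℝ) ≤ M := by
  have h1 : G S x ≤ ⌊M⌋₊ := by
    apply csSup_le'
    rintro g ⟨n, hn, rfl⟩
    apply Nat.le_floor
    have h2 := h n hn
    have h3 : Nat.nth (· ∈ S) n ≤ Nat.nth (· ∈ S) (n + 1) := (Nat.nth_strictMono hS (Nat.lt_succ_self n)).le
    rw [Nat.cast_sub h3]
    exact h2
  calc (G S x : ℝ) ≤ ⌊M⌋₊ := by exact_mod_cast h1
    _ ≤ M := Nat.floor_le hM

/-- if all late windows `(y, y + c log² y]` meet `S` then `G(x) ≤ c log² x` for large `x` -/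
theorem G_upper {S : Set ℕ} (hS : S.Infinite) {c : ℝ} (hc : 0 < c)
    (h : ∀ᶠ y : ℕ in atTop, ∃ m ∈ Ioc y (y + ⌊c * Real.log y ^ 2⌋₊), m ∈ S) :
    ∀ᶠ x : ℕ in atTop, (G S x : ℝ) ≤ c * Real.log x ^ 2 := by
  obtain ⟨y0, hy0⟩ := eventually_atTop.1 h
  obtain ⟨M, hM⟩ : ∃ M : ℕ, ∀ n < y0, Nat.nth (· ∈ S) (n + 1) - Nat.nth (· ∈ S) n ≤ M :=
    ⟨(range y0).sup (fun n => Nat.nth (· ∈ S) (n + 1) - Nat.nth (· ∈ S) n), fun n hn =>
      Finset.le_sup (f := fun n => Nat.nth (· ∈ S) (n + 1) - Nat.nth (· ∈ S) n) (Finset.mem_range.2 hn)⟩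
  have h1 : Tendsto (fun x : ℕ => c * Real.log x ^ 2) atTop atTop := by
    apply Tendsto.const_mul_atTop hc
    exact (tendsto_pow_atTop two_ne_zero).comp (Real.tendsto_log_atTop.comp tendsto_natCast_atTop_atTop)
  filter_upwards [h1.eventually_ge_atTop (M : ℝ), eventually_ge_atTop (y0 + 1)] with x hx hx1
  apply G_le hS _ (by positivity)
  intro n hn
  set s := Nat.nth (· ∈ S) n with hs
  by_cases hsy : y0 ≤ s
  · obtain ⟨m, hm, hmS⟩ := hy0 s hsy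
    rw [Finset.mem_Ioc] at hm
    have h4 : Nat.nth (· ∈ S) (n + 1) ≤ m := by
      by_contra hlt
      push Not at hlt
      have h5 := Nat.le_nth_of_lt_nth_succ (p := (· ∈ S)) hlt hmS
      omega
    have h5 : (Nat.nth (· ∈ S) (n + 1) : ℝ) ≤ s + ⌊c * Real.log s ^ 2⌋₊ := by
      exact_mod_cast h4.trans hm.2
    have h6 := Nat.floor_le (show 0 ≤ c * Real.log s ^ 2 by positivity)
    have h7 : c * Real.log s ^ 2 ≤ c * Real.log x ^ 2 := by
      have hl0 : 0 ≤ Real.log s := Real.log_natCast_nonneg s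
      rcases Nat.eq_zero_or_pos s with h0 | h0
      · rw [h0]
        have h8 : 0 ≤ c * Real.log x ^ 2 := by positivity
        simpa using h8
      · have : Real.log s ≤ Real.log x := Real.log_le_log (by exact_mod_cast h0) (by exact_mod_cast hn)
        gcongr
    linarith
  · push Not at hsy
    have h2 : n < y0 := lt_of_le_of_lt (le_nth hS n) hsy
    have h3 := hM n h2
    have h4 : (Nat.nth (· ∈ S) (n + 1) : ℝ) - s ≤ M := by
      have h5 : Nat.nth (· ∈ S) (n + 1) ≤ s + M := by omega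
      have h6 : (Nat.nth (· ∈ S) (n + 1) : ℝ) ≤ s + M := by exact_mod_cast h5
      linarith
    linarith

theorem moved_infinite {Ω : Type} {P : ℕ → Prop} (hP : {q | P q}.Infinite) (X : ℕ → Ω → ℕ) (ω : Ω) :
    (moved P X ω).Infinite := by
  rw [Set.infinite_iff_exists_gt]
  intro a
  obtain ⟨q, hq, hqa⟩ := hP.exists_gt a
  exact ⟨q + X q ω, ⟨q, hq, rfl⟩, by omega⟩

variable {Ω : Type} [MeasurableSpace Ω] {μ : Measure Ω} {X : ℕ → Ω → ℕ} {D : ℕ → ℕ} {P : ℕ → Prop}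

/-- the probability that `(y, y + h]` is avoided -/
noncomputable def av (P : ℕ → Prop) (D : ℕ → ℕ) (y h : ℕ) : ℝ :=
  ∏ q ∈ upto P (y + h), (1 - pr D (Ioc y (y + h)) q)

theorem prob_av (hX : Disp μ X D) (P : ℕ → Prop) (y h : ℕ) :
    μ (Av P X (Ioc y (y + h))) = ENNReal.ofReal (av P D y h) :=
  prob_Av hX P (fun m hm => (Finset.mem_Ioc.1 hm).2)

theorem av_nonneg (P : ℕ → Prop) (D : ℕ → ℕ) (y h : ℕ) : 0 ≤ av P D y h :=
  Finset.prod_nonneg fun q _ => by linarith [pr_le_one D (Ioc y (y + h)) q]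

/-- almost sure upper bound -/
theorem ae_upper (hX : Disp μ X D) (hP : {q | P q}.Infinite) {c δ : ℝ} (hc : 0 < c) (hδ : 0 < δ)
    (h : ∀ᶠ y : ℕ in atTop, av P D y ⌊c * Real.log y ^ 2⌋₊ ≤ (y : ℝ) ^ (-(1 + δ))) :
    ∀ᵐ ω ∂μ, ∀ᶠ x : ℕ in atTop, (G (moved P X ω) x : ℝ) ≤ c * Real.log x ^ 2 := by
  have h1 : Summable fun y : ℕ => (y : ℝ) ^ (-(1 + δ)) := by
    rw [Real.summable_nat_rpow]
    linarith
  have h2 : Summable fun y : ℕ => av P D y ⌊c * Real.log y ^ 2⌋₊ := by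
    obtain ⟨y0, hy0⟩ := eventually_atTop.1 h
    rw [← summable_nat_add_iff y0]
    refine Summable.of_nonneg_of_le (fun y => av_nonneg P D _ _) (fun y => hy0 (y + y0) (by omega)) ?_
    exact (summable_nat_add_iff y0).2 h1
  have h3 : ∑' y : ℕ, μ (Av P X (Ioc y (y + ⌊c * Real.log y ^ 2⌋₊))) ≠ ⊤ := by
    have h4 : ∑' y : ℕ, μ (Av P X (Ioc y (y + ⌊c * Real.log y ^ 2⌋₊))) =
        ∑' y : ℕ, ENNReal.ofReal (av P D y ⌊c * Real.log y ^ 2⌋₊) :=
      tsum_congr fun y => prob_av hX P y _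
    rw [h4]
    exact h2.tsum_ofReal_ne_top
  have h4 := ae_eventually_notMem h3
  filter_upwards [h4] with ω hω
  apply G_upper (moved_infinite hP X ω) hc
  filter_upwards [hω] with y hy
  by_contra hcon
  push Not at hcon
  exact hy hcon

/-- the deterministic part of the lower bound -/
theorem lower_det {S : Set ℕ} (hinf : S.Infinite) {c : ℝ} (hc : 0 ≤ c) {J : ℕ → Finset ℕ} {H : ℕ → ℕ}
    (hJ : ∀ᶠ k in atTop, ∀ y ∈ J k, k ≤ y ∧ y ≤ 2 ^ (k + 1))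
    (hH : ∀ᶠ k : ℕ in atTop, c * Real.log ((2 : ℝ) ^ (k + 2)) ^ 2 ≤ H k)
    (hS : ∀ᶠ k in atTop, ∃ y ∈ J k, ∀ m ∈ Ioc y (y + H k), m ∉ S) :
    ∀ᶠ x : ℕ in atTop, c * Real.log x ^ 2 ≤ (G S x : ℝ) := by
  obtain ⟨s, hs1⟩ := hinf.nonempty
  obtain ⟨k0, hk0⟩ := eventually_atTop.1 ((hS.and hJ).and hH)
  refine eventually_atTop.2 ⟨2 ^ (k0 + s + 1), fun x hx => ?_⟩
  have hx0 : x ≠ 0 := by
    have : 0 < 2 ^ (k0 + s + 1) := Nat.pow_pos (by norm_num)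
    omega
  have hk3 : k0 + s + 1 ≤ Nat.log 2 x := (Nat.le_log_iff_pow_le (by norm_num) hx0).2 hx
  obtain ⟨k, hk⟩ : ∃ k, k + 1 = Nat.log 2 x := ⟨Nat.log 2 x - 1, by omega⟩
  have hk1 : 2 ^ (k + 1) ≤ x := hk ▸ Nat.pow_log_le_self 2 hx0
  have hk2 : x < 2 ^ (k + 2) := by
    have := Nat.lt_pow_succ_log_self (b := 2) (by norm_num) x
    rw [← hk] at this
    exact this
  obtain ⟨⟨h3, h4⟩, h5⟩ := hk0 k (by omega)
  obtain ⟨y, hy, hyw⟩ := h3
  obtain ⟨h7, h8⟩ := h4 y hy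
  have h9 : H k ≤ G S x := G_ge hinf (h8.trans hk1) ⟨s, hs1, by omega⟩ hyw
  have h10 : (H k : ℝ) ≤ G S x := Nat.cast_le.2 h9
  have h12 : (x : ℝ) ≤ 2 ^ (k + 2) := by exact_mod_cast hk2.le
  have h13 : (0 : ℝ) < x := Nat.cast_pos.2 (Nat.pos_of_ne_zero hx0)
  have h14 : Real.log x ≤ Real.log ((2 : ℝ) ^ (k + 2)) := Real.log_le_log h13 h12
  have h15 : 0 ≤ Real.log x := Real.log_natCast_nonneg x
  have h11 : c * Real.log x ^ 2 ≤ c * Real.log ((2 : ℝ) ^ (k + 2)) ^ 2 :=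
    mul_le_mul_of_nonneg_left (pow_le_pow_left₀ h15 h14 2) hc
  exact (h11.trans h5).trans h10

/-- Borel–Cantelli with a tail bound -/
theorem bc_tail [IsFiniteMeasure μ] {E : ℕ → Set Ω} {m : ℕ → ℝ}
    (h1 : ∀ᶠ k in atTop, μ (E k) ≤ ENNReal.ofReal (1 / m k)) (hs : Summable fun k => 1 / m k) :
    ∑' k, μ (E k) ≠ ⊤ := by
  obtain ⟨k0, hk0⟩ := eventually_atTop.1 h1
  have h3 : ∑' k, ENNReal.ofReal (1 / m (k + k0)) ≠ ⊤ :=
    Summable.tsum_ofReal_ne_top ((summable_nat_add_iff (f := fun k => 1 / m k) k0).2 hs)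
  have h4 : ∑' k, μ (E (k + k0)) ≠ ⊤ :=
    ne_top_of_le_ne_top h3 (ENNReal.tsum_le_tsum fun k => hk0 (k + k0) (by omega))
  have h5 : ∑ k ∈ range k0, μ (E k) + ∑' k, μ (E (k + k0)) = ∑' k, μ (E k) :=
    ENNReal.summable.sum_add_tsum_nat_add' (f := fun k => μ (E k))
  rw [← h5]
  exact ENNReal.add_ne_top.2 ⟨ENNReal.sum_ne_top.2 fun k _ => measure_ne_top μ _, h4⟩

/-- almost sure lower bound -/
theorem ae_lower (hX : Disp μ X D) (hP : {q | P q}.Infinite) {c : ℝ} (hc : 0 ≤ c)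
    (J : ℕ → Finset ℕ) (H : ℕ → ℕ)
    (hJ : ∀ᶠ k in atTop, ∀ y ∈ J k, k ≤ y ∧ y ≤ 2 ^ (k + 1))
    (hd : ∀ᶠ k in atTop, ∀ y ∈ J k, ∀ y' ∈ J k, y < y' → y + H k ≤ y')
    (hH : ∀ᶠ k : ℕ in atTop, c * Real.log ((2 : ℝ) ^ (k + 2)) ^ 2 ≤ H k)
    (hm : ∀ᶠ k : ℕ in atTop, ((k : ℝ) + 1) ^ 2 ≤ ∑ y ∈ J k, av P D y (H k)) :
    ∀ᵐ ω ∂μ, ∀ᶠ x : ℕ in atTop, c * Real.log x ^ 2 ≤ (G (moved P X ω) x : ℝ) := by
  have hPr : IsProbabilityMeasure μ := hX.indep.isProbabilityMeasure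
  have hs : Summable fun k : ℕ => 1 / ((k : ℝ) + 1) ^ 2 := by
    have h0 := (summable_nat_add_iff 1).2 (Real.summable_one_div_nat_pow.2 (by norm_num : 1 < 2))
    exact_mod_cast h0
  have h1 : ∀ᶠ k : ℕ in atTop, μ {ω | ∀ y ∈ J k, ω ∉ Av P X (Ioc y (y + H k))} ≤
      ENNReal.ofReal (1 / ((k : ℝ) + 1) ^ 2) := by
    filter_upwards [hm, hd] with k hk hd
    apply second_moment (J k) (fun y => Av P X (Ioc y (y + H k))) (fun y => meas_Av hX P _)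
    · intro i hi j hj hij
      apply neg_corr hX P
      rw [Finset.disjoint_left]
      intro a ha ha'
      rw [Finset.mem_Ioc] at ha ha'
      rcases lt_or_gt_of_ne hij with h | h
      · have := hd i hi j hj h
        omega
      · have := hd j hj i hi h
        omega
    · positivity
    · refine hk.trans (le_of_eq ?_)
      refine Finset.sum_congr rfl fun y _ => ?_
      rw [prob_av hX P, ENNReal.toReal_ofReal (av_nonneg P D y _)]
  have h2 := bc_tail h1 hs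
  filter_upwards [ae_eventually_notMem h2] with ω hω
  refine lower_det (moved_infinite hP X ω) hc hJ hH ?_
  filter_upwards [hω] with k hk
  by_contra hcon
  push Not at hcon
  apply hk
  intro y hy hav
  obtain ⟨m', hm', hm'S⟩ := hcon y hy
  exact hav m' hm' hm'S

end Pool.Agent.Q268.DP
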