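import Mathlib
import Pool.Agent.Q268.DP.Det

/-!
Bounds for the avoidance probability of a window.
-/

set_option autoImplicit false

namespace Pool.Agent.Q268.DP

open Filter Finset MeasureTheory ProbabilityTheory
open scoped ENNReal Topology

variable {P : ℕ → Prop} {D : ℕ → ℕ}

/-- `exp (- x / (1 - x)) ≤ 1 - x` -/
theorem exp_le_one_sub {x : ℝ} (hx : x < 1) : Real.exp (-(x / (1 - x))) ≤ 1 - x := by
  rw [← Real.le_log_iff_exp_le (by linarith)]
  have h4 := Real.one_sub_inv_le_log_of_pos (show 0 < 1 - x by linarith)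
  refine le_trans (le_of_eq ?_) h4
  have : 1 - x ≠ 0 := by linarith
  field_simp
  ring

theorem av_ge {y h : ℕ} {δ : ℝ} (hδ : δ < 1)
    (hp : ∀ q ∈ upto P (y + h), pr D (Ioc y (y + h)) q ≤ δ) :
    Real.exp (-((∑ q ∈ upto P (y + h), pr D (Ioc y (y + h)) q) / (1 - δ))) ≤ av P D y h := by
  unfold av
  rw [Finset.sum_div, ← Finset.sum_neg_distrib, Real.exp_sum]
  apply Finset.prod_le_prod
  · intro q _
    exact (Real.exp_pos _).le
  · intro q hq
    have h1 := hp q hq
    have h0 := pr_nonneg D (Ioc y (y + h)) q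
    refine le_trans ?_ (exp_le_one_sub (by linarith))
    apply Real.exp_le_exp.2
    apply neg_le_neg
    exact div_le_div_of_nonneg_left h0 (by linarith) (by linarith)

theorem av_le {y h : ℕ} (Q : Finset ℕ) (hQ : Q ⊆ upto P (y + h)) :
    av P D y h ≤ Real.exp (-(∑ q ∈ Q, pr D (Ioc y (y + h)) q)) := by
  unfold av
  rw [← Finset.prod_sdiff hQ, ← Finset.sum_neg_distrib, Real.exp_sum]
  have h1 : ∏ q ∈ upto P (y + h) \ Q, (1 - pr D (Ioc y (y + h)) q) ≤ 1 := by
    apply Finset.prod_le_one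
    · intro q _
      linarith [pr_le_one D (Ioc y (y + h)) q]
    · intro q _
      linarith [pr_nonneg D (Ioc y (y + h)) q]
  have h2 : ∏ q ∈ Q, (1 - pr D (Ioc y (y + h)) q) ≤ ∏ q ∈ Q, Real.exp (-pr D (Ioc y (y + h)) q) := by
    apply Finset.prod_le_prod
    · intro q _
      linarith [pr_le_one D (Ioc y (y + h)) q]
    · intro q _
      have := Real.add_one_le_exp (-pr D (Ioc y (y + h)) q)
      linarith
  have h3 : 0 ≤ ∏ q ∈ Q, (1 - pr D (Ioc y (y + h)) q) :=
    Finset.prod_nonneg fun q _ => by linarith [pr_le_one D (Ioc y (y + h)) q]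
  calc _ ≤ 1 * ∏ q ∈ Q, (1 - pr D (Ioc y (y + h)) q) := mul_le_mul_of_nonneg_right h1 h3
    _ ≤ _ := by rw [one_mul]; exact h2

/-- a window inside the range of `q` -/
theorem pr_full {y h q : ℕ} (h1 : q ≤ y) (h2 : y + h ≤ q + D q) :
    pr D (Ioc y (y + h)) q = h / ((D q : ℝ) + 1) := by
  unfold pr
  have : (Ioc y (y + h)).filter (fun m => q ≤ m ∧ m ≤ q + D q) = Ioc y (y + h) := by
    apply Finset.filter_true_of_mem
    intro m hm
    rw [Finset.mem_Ioc] at hm
    omega
  rw [this, Nat.card_Ioc]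
  simp

theorem pr_Ioc_le (D : ℕ → ℕ) (y h q : ℕ) : pr D (Ioc y (y + h)) q ≤ h / ((D q : ℝ) + 1) := by
  have := pr_le D (Ioc y (y + h)) q
  rw [Nat.card_Ioc, Nat.add_sub_cancel_left] at this
  exact this

/-- consecutive windows -/
theorem sum_windows (D : ℕ → ℕ) (x h N q : ℕ) :
    ∑ j ∈ range N, pr D (Ioc (x + j * h) (x + j * h + h)) q = pr D (Ioc x (x + N * h)) q := by
  induction N with
  | zero =>
    simp [pr]
  | succ N ih =>
    rw [Finset.sum_range_succ, ih, ← pr_union]
    · congr 1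
      ext m
      simp only [Finset.mem_union, Finset.mem_Ioc]
      have : (N + 1) * h = N * h + h := by ring
      rw [this]
      generalize N * h = a
      omega
    · rw [Finset.disjoint_left]
      intro m hm hm'
      rw [Finset.mem_Ioc] at hm hm'
      omega

/-- the sum of `exp (- s j)` is at least `N` times the exponential of minus the average -/
theorem jensen {N : ℕ} (hN : 0 < N) (s : ℕ → ℝ) :
    (N : ℝ) * Real.exp (-((∑ j ∈ range N, s j) / N)) ≤ ∑ j ∈ range N, Real.exp (-s j) := by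
  have hN' : (0 : ℝ) < N := Nat.cast_pos.2 hN
  have h := convexOn_exp.map_sum_le (t := range N) (w := fun _ => (1 : ℝ) / N) (p := fun j => -s j)
    (fun _ _ => by positivity) (by simp; field_simp) (fun _ _ => Set.mem_univ _)
  simp only [smul_eq_mul] at h
  rw [← Finset.mul_sum, ← Finset.mul_sum, Finset.sum_neg_distrib] at h
  have h2 : (1 : ℝ) / N * -∑ j ∈ range N, s j = -((∑ j ∈ range N, s j) / N) := by ring
  rw [h2] at h
  calc (N : ℝ) * Real.exp (-((∑ j ∈ range N, s j) / N))
      ≤ N * (1 / N * ∑ j ∈ range N, Real.exp (-s j)) := mul_le_mul_of_nonneg_left h hN'.le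
    _ = _ := by field_simp

end Pool.Agent.Q268.DP
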