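import Mathlib
import Pool.Agent.Q268.DP.Prod
import Pool.Agent.Helper923.PNT

/-!
Displacements larger than `log² q`: the largest gap is at least `(1 - o(1)) log² x`.
-/

set_option autoImplicit false

namespace Pool.Agent.Q268.DP

open Filter Finset MeasureTheory ProbabilityTheory
open scoped ENNReal Topology

variable {D : ℕ → ℕ}

theorem log_ratio (b : ℝ) : Tendsto (fun t : ℝ => t / (b + t)) atTop (𝓝 1) := by
  have h1 : Tendsto (fun t : ℝ => 1 - b / (b + t)) atTop (𝓝 (1 - 0)) := by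
    apply Tendsto.const_sub
    exact (tendsto_const_nhds (x := b)).div_atTop (tendsto_atTop_add_const_left _ b tendsto_id)
  rw [sub_zero] at h1
  refine h1.congr' ?_
  filter_upwards [eventually_gt_atTop (-b)] with t ht
  have : b + t ≠ 0 := by linarith
  field_simp
  ring

theorem pnt_scale {a : ℝ} (ha : 0 < a) :
    Tendsto (fun x : ℝ => (Nat.primeCounting ⌊a * x⌋₊ : ℝ) * Real.log x / x) atTop (𝓝 a) := by
  have h1 := Pool.Agent.Helper923.PNT.pi_tendsto.comp (tendsto_id.const_mul_atTop ha)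
  have h2 : Tendsto (fun x : ℝ => Real.log x / (Real.log a + Real.log x)) atTop (𝓝 1) :=
    (log_ratio (Real.log a)).comp Real.tendsto_log_atTop
  have h3 := (h1.mul h2).mul_const a
  rw [one_mul, one_mul] at h3
  refine h3.congr' ?_
  filter_upwards [eventually_gt_atTop 0, Real.tendsto_log_atTop.eventually_gt_atTop (-Real.log a)] with x hx hx2
  have h4 : Real.log (a * x) = Real.log a + Real.log x := Real.log_mul ha.ne' hx.ne'
  have h5 : Real.log a + Real.log x ≠ 0 := by linarith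
  simp only [Function.comp_apply, id_eq]
  rw [h4]
  field_simp

theorem card_upto (N : ℕ) : (upto Nat.Prime N).card = Nat.primeCounting N := by
  classical
  unfold upto Nat.primeCounting Nat.primeCounting'
  rw [Nat.count_eq_card_filter_range]
  congr

theorem upto_mono (P : ℕ → Prop) {M N : ℕ} (h : M ≤ N) : upto P M ⊆ upto P N := by
  intro q hq
  rw [mem_upto] at hq ⊢
  exact ⟨hq.1.trans h, hq.2⟩

theorem reach_gt (hD : Tendsto (fun q : ℕ => (D q : ℝ) / q) atTop (𝓝 0)) {ε : ℝ} (hε : 0 < ε) :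
    ∀ᶠ X : ℕ in atTop, ∀ q, X < q + D q → (X : ℝ) < (1 + ε) * q := by
  obtain ⟨q0, hq0⟩ := eventually_atTop.1 ((hD.eventually_lt_const hε).and (eventually_gt_atTop 0))
  filter_upwards [eventually_ge_atTop ((range q0).sup (fun q => q + D q))] with X hX q hq
  rcases lt_or_ge q q0 with h | h
  · have := Finset.le_sup (f := fun q => q + D q) (Finset.mem_range.2 h)
    omega
  · obtain ⟨h1, h2⟩ := hq0 q h
    have h3 : (0 : ℝ) < q := Nat.cast_pos.2 h2
    rw [div_lt_iff₀ h3] at h1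
    have h4 : (X : ℝ) < q + D q := by exact_mod_cast hq
    linarith

/-- primes up to `2 X` which can be moved above `X` -/
noncomputable def reach (D : ℕ → ℕ) (X : ℕ) : Finset ℕ := (upto Nat.Prime (2 * X)).filter (fun q => X < q + D q)

theorem card_reach (hD : Tendsto (fun q : ℕ => (D q : ℝ) / q) atTop (𝓝 0)) {ε : ℝ} (hε : 0 < ε) :
    ∀ᶠ X : ℕ in atTop, ((reach D X).card : ℝ) ≤ (1 + ε) * (X / Real.log X) := by
  have h1 := (pnt_scale (a := 2) (by norm_num)).comp (tendsto_natCast_atTop_atTop (R := ℝ))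
  have h2 := (pnt_scale (a := 1 / (1 + ε)) (by positivity)).comp (tendsto_natCast_atTop_atTop (R := ℝ))
  have h3 := h1.sub h2
  have h4 : (2 : ℝ) - 1 / (1 + ε) < 1 + ε := by
    have : 1 - ε < 1 / (1 + ε) := by
      rw [lt_div_iff₀ (by positivity)]
      nlinarith
    linarith
  filter_upwards [h3.eventually_lt_const h4, reach_gt hD hε, eventually_ge_atTop 3] with X h5 h6 hX
  simp only [Function.comp_apply] at h5
  set z := ⌊1 / (1 + ε) * (X : ℝ)⌋₊ with hz
  have e1 : ⌊2 * (X : ℝ)⌋₊ = 2 * X := by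
    rw [show 2 * (X : ℝ) = ((2 * X : ℕ) : ℝ) by push_cast; ring, Nat.floor_natCast]
  rw [e1] at h5
  have hX0 : (0 : ℝ) < X := by exact_mod_cast (by omega : 0 < X)
  have hL : 0 < Real.log X := Real.log_pos (by exact_mod_cast (by omega : 1 < X))
  have hzX : z ≤ 2 * X := by
    have : (z : ℝ) ≤ 1 / (1 + ε) * X := Nat.floor_le (by positivity)
    have h7 : 1 / (1 + ε) * (X : ℝ) ≤ 1 * X := by
      gcongr
      rw [div_le_one (by positivity)]
      linarith
    have h8 : (z : ℝ) ≤ (2 * X : ℕ) := by push_cast; linarith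
    exact_mod_cast h8
  have hsub : reach D X ⊆ upto Nat.Prime (2 * X) \ upto Nat.Prime z := by
    intro q hq
    unfold reach at hq
    rw [Finset.mem_filter] at hq
    rw [Finset.mem_sdiff]
    refine ⟨hq.1, fun hq2 => ?_⟩
    have h7 := h6 q hq.2
    have h8 := (mem_upto.1 hq2).1
    have h9 : (q : ℝ) ≤ 1 / (1 + ε) * X := (Nat.le_floor_iff (by positivity)).1 h8
    have h10 : (1 + ε) * (q : ℝ) ≤ (1 + ε) * (1 / (1 + ε) * X) := by gcongr
    have h11 : (1 + ε) * (1 / (1 + ε) * (X : ℝ)) = X := by field_simp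
    linarith
  have h7 := Finset.card_le_card hsub
  have h8 := Finset.card_sdiff_add_card_eq_card (upto_mono Nat.Prime hzX)
  rw [card_upto, card_upto] at h8
  have h9 : ((reach D X).card : ℝ) ≤ (Nat.primeCounting (2 * X) : ℝ) - Nat.primeCounting z := by
    have h10 : (reach D X).card + Nat.primeCounting z ≤ Nat.primeCounting (2 * X) := by omega
    have h11 : ((reach D X).card : ℝ) + Nat.primeCounting z ≤ Nat.primeCounting (2 * X) := by exact_mod_cast h10
    linarith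
  have h10 : ((Nat.primeCounting (2 * X) : ℝ) - Nat.primeCounting z) * (Real.log X / X) ≤ 1 + ε := by
    refine le_trans (le_of_eq ?_) h5.le
    ring
  calc ((reach D X).card : ℝ) ≤ (Nat.primeCounting (2 * X) : ℝ) - Nat.primeCounting z := h9
    _ = ((Nat.primeCounting (2 * X) : ℝ) - Nat.primeCounting z) * (Real.log X / X) * (X / Real.log X) := by
        field_simp
    _ ≤ _ := by gcongr

/-- the length of the windows -/
noncomputable def H (c : ℝ) (k : ℕ) : ℕ := ⌈c * Real.log ((2 : ℝ) ^ (k + 2)) ^ 2⌉₊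

theorem H_ge (c : ℝ) (k : ℕ) : c * Real.log ((2 : ℝ) ^ (k + 2)) ^ 2 ≤ H c k := Nat.le_ceil _

theorem tendsto_logk : Tendsto (fun k : ℕ => Real.log ((2 : ℝ) ^ k)) atTop atTop := by
  have h : (fun k : ℕ => Real.log ((2 : ℝ) ^ k)) = fun k : ℕ => (k : ℝ) * Real.log 2 := by
    funext k
    rw [Real.log_pow]
  rw [h]
  exact Tendsto.atTop_mul_const (Real.log_pos (by norm_num)) tendsto_natCast_atTop_atTop

theorem H_le {c c₁ : ℝ} (hc : 0 < c) (h : c < c₁) :
    ∀ᶠ k : ℕ in atTop, (H c k : ℝ) ≤ c₁ * Real.log ((2 : ℝ) ^ k) ^ 2 := by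
  set b := Real.log 4 with hb
  have h1 : Tendsto (fun t : ℝ => c * (1 + b / t) ^ 2 + 1 / t ^ 2) atTop (𝓝 (c * (1 + 0) ^ 2 + 0)) := by
    apply Tendsto.add
    · apply Tendsto.const_mul
      apply Tendsto.pow
      apply Tendsto.const_add
      exact tendsto_id.const_div_atTop b
    · exact (tendsto_pow_atTop two_ne_zero).const_div_atTop 1
  have h2 : c * (1 + 0) ^ 2 + 0 < c₁ := by simpa using h
  have h3 := tendsto_logk.eventually (h1.eventually_lt_const h2)
  filter_upwards [h3, tendsto_logk.eventually_gt_atTop 0] with k hk hk0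
  have h4 : Real.log ((2 : ℝ) ^ (k + 2)) = Real.log ((2 : ℝ) ^ k) + b := by
    rw [hb, pow_add, Real.log_mul (by positivity) (by norm_num)]
    norm_num
  set ℓ := Real.log ((2 : ℝ) ^ k) with hℓ
  have h5 : (H c k : ℝ) < c * Real.log ((2 : ℝ) ^ (k + 2)) ^ 2 + 1 := Nat.ceil_lt_add_one (by positivity)
  rw [h4] at h5
  have h6 : c * (ℓ + b) ^ 2 + 1 = (c * (1 + b / ℓ) ^ 2 + 1 / ℓ ^ 2) * ℓ ^ 2 := by
    field_simp
  rw [h6] at h5
  refine h5.le.trans ?_
  gcongr

theorem growth1 {t : ℝ} (ht : 0 < t) (K : ℝ) : ∀ᶠ ℓ : ℝ in atTop, K * ℓ ^ 2 ≤ t * Real.exp ℓ := by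
  have h1 := (Real.tendsto_exp_div_pow_atTop 2).eventually_ge_atTop (K / t)
  filter_upwards [h1, eventually_gt_atTop 0] with ℓ h2 h3
  rw [div_le_div_iff₀ ht (by positivity)] at h2
  linarith

theorem growth2 {t : ℝ} (ht : 0 < t) (K : ℝ) (n : ℕ) : ∀ᶠ ℓ : ℝ in atTop, K * ℓ ^ n ≤ Real.exp (t * ℓ) := by
  have h0 : Tendsto (fun ℓ : ℝ => t * ℓ) atTop atTop := tendsto_id.const_mul_atTop ht
  have h1 := h0.eventually ((Real.tendsto_exp_div_pow_atTop n).eventually_ge_atTop (K / t ^ n))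
  filter_upwards [h1, eventually_gt_atTop 0] with ℓ h2 h3
  rw [div_le_div_iff₀ (by positivity) (by positivity)] at h2
  have h4 : K * (t * ℓ) ^ n = (K * ℓ ^ n) * t ^ n := by ring
  rw [h4] at h2
  exact le_of_mul_le_mul_right h2 (by positivity)

theorem sum_pr_le (D : ℕ → ℕ) (X h N : ℕ) (hN : N * h ≤ X) :
    ∑ j ∈ range N, ∑ q ∈ upto Nat.Prime (X + j * h + h), pr D (Ioc (X + j * h) (X + j * h + h)) q ≤
      (reach D X).card := by
  have h1 : ∀ j ∈ range N, ∑ q ∈ upto Nat.Prime (X + j * h + h), pr D (Ioc (X + j * h) (X + j * h + h)) q ≤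
      ∑ q ∈ upto Nat.Prime (2 * X), pr D (Ioc (X + j * h) (X + j * h + h)) q := by
    intro j hj
    apply Finset.sum_le_sum_of_subset_of_nonneg
    · apply upto_mono
      have h2 : (j + 1) * h ≤ N * h := Nat.mul_le_mul_right h (Finset.mem_range.1 hj)
      have h3 : (j + 1) * h = j * h + h := by ring
      omega
    · intro q _ _
      exact pr_nonneg D _ q
  refine (Finset.sum_le_sum h1).trans ?_
  rw [Finset.sum_comm]
  simp only [sum_windows]
  unfold reach
  rw [Finset.card_filter]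
  push_cast
  apply Finset.sum_le_sum
  intro q _
  split_ifs with hq
  · exact pr_le_one D _ q
  · rw [pr_zero]
    intro m hm
    rw [Finset.mem_Ioc] at hm
    left
    omega

theorem partA_sum (h1 : Tendsto (fun q : ℕ => (D q : ℝ) / Real.log q ^ 2) atTop atTop)
    (h2 : Tendsto (fun q : ℕ => (D q : ℝ) / q) atTop (𝓝 0)) {t : ℝ} (ht : 0 < t) (ht8 : t < 1 / 8) :
    ∀ᶠ k : ℕ in atTop, 0 < H (1 - 8 * t) k ∧ ((k : ℝ) + 1) ^ 2 ≤
      ∑ j ∈ range (2 ^ k / H (1 - 8 * t) k), av Nat.Prime D (2 ^ k + j * H (1 - 8 * t) k) (H (1 - 8 * t) k) := by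
  have hpow : Tendsto (fun k : ℕ => 2 ^ k) atTop atTop := tendsto_pow_atTop_atTop_of_one_lt (by norm_num)
  have f1 := H_le (c := 1 - 8 * t) (c₁ := 1 - 7 * t) (by linarith) (by linarith)
  have f2 := hpow.eventually (card_reach h2 ht)
  have f3 := hpow.eventually (reach_gt h2 one_pos)
  have f4 : ∀ᶠ k : ℕ in atTop, ∀ q : ℕ, 2 ^ k < 2 * q → 4 / t * Real.log q ^ 2 ≤ D q := by
    obtain ⟨q0, hq0⟩ := eventually_atTop.1 ((h1.eventually_ge_atTop (4 / t)).and (eventually_ge_atTop 3))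
    filter_upwards [hpow.eventually_ge_atTop (2 * q0)] with k hk q hq
    obtain ⟨h5, h6⟩ := hq0 q (by omega)
    have : 0 < Real.log q := Real.log_pos (by exact_mod_cast (by omega : 1 < q))
    rwa [le_div_iff₀ (by positivity)] at h5
  have f5 := tendsto_logk.eventually (growth1 ht (1 + t))
  have f6 := tendsto_logk.eventually (growth2 (t := 2 * t) (by positivity) 18 4)
  filter_upwards [f1, f2, f3, f4, f5, f6, tendsto_logk.eventually_ge_atTop 10] with k f1 f2 f3 f4 f5 f6 f7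
  set h := H (1 - 8 * t) k with hh
  have hX0 : (0 : ℝ) < 2 ^ k := by positivity
  have eX : ((2 ^ k : ℕ) : ℝ) = 2 ^ k := by push_cast; rfl
  rw [eX] at f2
  set ℓ := Real.log ((2 : ℝ) ^ k) with hℓ
  have eexp : Real.exp ℓ = 2 ^ k := Real.exp_log hX0
  rw [eexp] at f5
  have hl : 0 < ℓ := by linarith
  have hh0 : (0 : ℝ) < h := by
    refine lt_of_lt_of_le ?_ (H_ge (1 - 8 * t) k)
    have h3 : 0 < Real.log ((2 : ℝ) ^ (k + 2)) := Real.log_pos (one_lt_pow₀ (by norm_num) (by omega))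
    have h4 : 0 < 1 - 8 * t := by linarith
    positivity
  have hh0' : 0 < h := by exact_mod_cast hh0
  refine ⟨hh0', ?_⟩
  set N := 2 ^ k / h with hN
  have hNle : N * h ≤ 2 ^ k := Nat.div_mul_le_self _ _
  have hNgt : (2 : ℝ) ^ k < (N + 1) * h := by
    have : 2 ^ k < (N + 1) * h := by
      have := Nat.lt_div_mul_add (a := 2 ^ k) hh0'
      rw [← hN] at this
      linarith
    exact_mod_cast this
  have hl2 : (h : ℝ) ≤ ℓ ^ 2 := by nlinarith
  have hN1 : (2 : ℝ) ^ k ≤ (1 + t) * (N * h) := by nlinarith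
  have hN0 : 0 < N := by
    rcases Nat.eq_zero_or_pos N with h0 | h0
    · rw [h0] at hN1
      simp at hN1
      linarith
    · exact h0
  have hN0' : (0 : ℝ) < N := Nat.cast_pos.2 hN0
  -- each single probability is small
  have g1 : ∀ j ∈ range N, ∀ q ∈ upto Nat.Prime (2 ^ k + j * h + h),
      pr D (Ioc (2 ^ k + j * h) (2 ^ k + j * h + h)) q ≤ t := by
    intro j _ q _
    rcases lt_or_ge (2 ^ k) (q + D q) with h5 | h5
    · have h6 : 2 ^ k < 2 * q := by
        have h7 := f3 q h5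
        rw [eX] at h7
        have h8 : ((2 ^ k : ℕ) : ℝ) < ((2 * q : ℕ) : ℝ) := by push_cast; linarith
        exact_mod_cast h8
      have h7 := f4 q h6
      have h8 : ℓ / 2 ≤ Real.log q := by
        have h9 : (2 : ℝ) ^ k ≤ 2 * q := by exact_mod_cast h6.le
        have hq0 : (0 : ℝ) < q := by linarith
        have h10 := Real.log_le_log hX0 h9
        rw [Real.log_mul (by norm_num) hq0.ne'] at h10
        have h11 : Real.log 2 < 1 := by
          have := Real.log_two_lt_d9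
          linarith
        linarith
      have h9 : ℓ ^ 2 / 4 ≤ Real.log q ^ 2 := by nlinarith
      have h10 : ℓ ^ 2 / t ≤ D q := by
        refine le_trans ?_ h7
        have : ℓ ^ 2 / t = 4 / t * (ℓ ^ 2 / 4) := by field_simp
        rw [this]
        gcongr
      refine (pr_Ioc_le D _ _ q).trans ?_
      rw [div_le_iff₀ (by positivity)]
      rw [div_le_iff₀ ht] at h10
      nlinarith
    · rw [pr_zero]
      · exact ht.le
      · intro m hm
        rw [Finset.mem_Ioc] at hm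
        left
        have : 0 ≤ j * h := Nat.zero_le _
        omega
  set S : ℕ → ℝ := fun j => ∑ q ∈ upto Nat.Prime (2 ^ k + j * h + h),
    pr D (Ioc (2 ^ k + j * h) (2 ^ k + j * h + h)) q with hS
  have g2 : ∀ j ∈ range N, Real.exp (-(S j / (1 - t))) ≤ av Nat.Prime D (2 ^ k + j * h) h :=
    fun j hj => av_ge (by linarith) (g1 j hj)
  refine le_trans ?_ (Finset.sum_le_sum g2)
  refine le_trans ?_ (jensen hN0 (fun j => S j / (1 - t)))
  have g3 : ∑ j ∈ range N, S j ≤ (1 + t) * (2 ^ k / ℓ) := by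
    have := sum_pr_le D (2 ^ k) h N hNle
    exact this.trans f2
  have g4 : (∑ j ∈ range N, S j / (1 - t)) / N ≤ (1 - 2 * t) * ℓ := by
    rw [← Finset.sum_div, div_div, div_le_iff₀ (by nlinarith)]
    refine g3.trans ?_
    have h5 : (2 : ℝ) ^ k / ℓ ≤ (1 + t) * N * ((1 - 7 * t) * ℓ) := by
      rw [div_le_iff₀ hl]
      calc (2 : ℝ) ^ k ≤ (1 + t) * (N * h) := hN1
        _ ≤ (1 + t) * (N * ((1 - 7 * t) * ℓ ^ 2)) := by gcongr
        _ = _ := by ring
    have h6 : (1 + t) ^ 2 * (1 - 7 * t) ≤ (1 - 2 * t) * (1 - t) := by nlinarith [ht, sq_nonneg t]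
    calc (1 + t) * (2 ^ k / ℓ) ≤ (1 + t) * ((1 + t) * N * ((1 - 7 * t) * ℓ)) := by gcongr
      _ = ((1 + t) ^ 2 * (1 - 7 * t)) * (N * ℓ) := by ring
      _ ≤ ((1 - 2 * t) * (1 - t)) * (N * ℓ) := by gcongr
      _ = _ := by ring
  have g5 : Real.exp (-((1 - 2 * t) * ℓ)) ≤ Real.exp (-((∑ j ∈ range N, S j / (1 - t)) / N)) :=
    Real.exp_le_exp.2 (neg_le_neg g4)
  refine le_trans ?_ (mul_le_mul_of_nonneg_left g5 hN0'.le)
  have g6 : Real.exp ℓ ≤ 2 * ℓ ^ 2 * N := by
    rw [eexp]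
    calc (2 : ℝ) ^ k ≤ (1 + t) * (N * h) := hN1
      _ ≤ 2 * (N * ℓ ^ 2) := by
        gcongr
        linarith
      _ = _ := by ring
  have g7 : Real.exp (-((1 - 2 * t) * ℓ)) = Real.exp (2 * t * ℓ) / Real.exp ℓ := by
    rw [← Real.exp_sub]
    congr 1
    ring
  have g8 : (k : ℝ) + 1 ≤ 3 * ℓ := by
    have h5 : ℓ = k * Real.log 2 := by rw [hℓ, Real.log_pow]
    have h6 := Real.log_two_gt_d9
    have h7 : (0 : ℝ) ≤ k := Nat.cast_nonneg k
    nlinarith
  rw [g7]
  have g9 : ((k : ℝ) + 1) ^ 2 ≤ 9 * ℓ ^ 2 := by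
    have h7 : (0 : ℝ) ≤ k := Nat.cast_nonneg k
    nlinarith
  calc ((k : ℝ) + 1) ^ 2 ≤ 9 * ℓ ^ 2 := g9
    _ = 18 * ℓ ^ 4 / (2 * ℓ ^ 2) := by field_simp; norm_num
    _ ≤ Real.exp (2 * t * ℓ) / (2 * ℓ ^ 2) := by gcongr
    _ = N * (Real.exp (2 * t * ℓ) / (2 * ℓ ^ 2 * N)) := by field_simp
    _ ≤ N * (Real.exp (2 * t * ℓ) / Real.exp ℓ) := by gcongr

theorem primes_infinite : {q : ℕ | q.Prime}.Infinite := Nat.infinite_setOfPred_prime

theorem partA {Ω : Type} [MeasurableSpace Ω] {μ : Measure Ω} {X : ℕ → Ω → ℕ} (hX : Disp μ X D)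
    (h1 : Tendsto (fun q : ℕ => (D q : ℝ) / Real.log q ^ 2) atTop atTop)
    (h2 : Tendsto (fun q : ℕ => (D q : ℝ) / q) atTop (𝓝 0)) {c : ℝ} (hc : c < 1) :
    ∀ᵐ ω ∂μ, ∀ᶠ x : ℕ in atTop, c * Real.log x ^ 2 ≤ (G (moved Nat.Prime X ω) x : ℝ) := by
  obtain ⟨t, ht, ht8, htc⟩ : ∃ t : ℝ, 0 < t ∧ t < 1 / 8 ∧ c ≤ 1 - 8 * t := by
    refine ⟨min ((1 - c) / 8) (1 / 16), ?_, ?_, ?_⟩
    · apply lt_min
      · linarith
      · norm_num
    · exact lt_of_le_of_lt (min_le_right _ _) (by norm_num)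
    · have := min_le_left ((1 - c) / 8) (1 / 16)
      linarith
  have key := ae_lower hX primes_infinite (c := 1 - 8 * t) (by linarith)
    (fun k => (range (2 ^ k / H (1 - 8 * t) k)).image (fun j => 2 ^ k + j * H (1 - 8 * t) k))
    (H (1 - 8 * t)) ?_ ?_ ?_ ?_
  · filter_upwards [key] with ω hω
    filter_upwards [hω] with x hx
    refine le_trans ?_ hx
    gcongr
  · refine Eventually.of_forall fun k y hy => ?_
    rw [Finset.mem_image] at hy
    obtain ⟨j, hj, rfl⟩ := hy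
    rw [Finset.mem_range] at hj
    have h3 : j * H (1 - 8 * t) k ≤ (2 ^ k / H (1 - 8 * t) k) * H (1 - 8 * t) k :=
      Nat.mul_le_mul_right _ hj.le
    have h4 := Nat.div_mul_le_self (2 ^ k) (H (1 - 8 * t) k)
    have h5 : k < 2 ^ k := Nat.lt_two_pow_self
    constructor
    · omega
    · rw [pow_succ]
      omega
  · refine Eventually.of_forall fun k y hy y' hy' hyy => ?_
    simp only [Finset.mem_image, Finset.mem_range] at hy hy'
    obtain ⟨j, hj, rfl⟩ := hy
    obtain ⟨j', hj', rfl⟩ := hy'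
    have h3 : j < j' := by
      by_contra hcon
      push Not at hcon
      have := Nat.mul_le_mul_right (H (1 - 8 * t) k) hcon
      omega
    have h4 : (j + 1) * H (1 - 8 * t) k ≤ j' * H (1 - 8 * t) k := Nat.mul_le_mul_right _ h3
    have h5 : (j + 1) * H (1 - 8 * t) k = j * H (1 - 8 * t) k + H (1 - 8 * t) k := by ring
    omega
  · exact Eventually.of_forall fun k => H_ge _ k
  · filter_upwards [partA_sum h1 h2 ht ht8] with k hk
    rw [Finset.sum_image]
    · exact hk.2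
    · intro j _ j' _ hjj
      have h3 : j * H (1 - 8 * t) k = j' * H (1 - 8 * t) k := by
        simp only at hjj
        omega
      exact Nat.eq_of_mul_eq_mul_right hk.1 h3

end Pool.Agent.Q268.DP
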