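import Mathlib
import Pool.Agent.Q268.DP.A
import Pool.Agent.Q110.RS.Fin

/-!
Displacements of size `(log q)^u`, `2 < u < 3`: the largest gap is at least
`(e^(-γ) / ω(u) - o(1)) log² x`, `ω` Buchstab's function.
-/

set_option autoImplicit false

namespace Pool.Agent.Q268.DP

open Filter Finset MeasureTheory ProbabilityTheory
open scoped ENNReal Topology
open Pool.Agent.H510R2.Maier (cntP cntP_eq)
open Pool.Agent.Q110.RS.M (om NFu few_freq' om_pos)

/-- `⌊(log q)^u⌋` -/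
noncomputable def Du (u : ℝ) (q : ℕ) : ℕ := ⌊(Real.log q) ^ u⌋₊

theorem Du_mono {u : ℝ} (hu : 0 ≤ u) {a b : ℕ} (ha : 0 < a) (h : a ≤ b) : Du u a ≤ Du u b := by
  unfold Du
  apply Nat.floor_mono
  apply Real.rpow_le_rpow (Real.log_natCast_nonneg a) _ hu
  exact Real.log_le_log (by exact_mod_cast ha) (by exact_mod_cast h)

theorem Du_le (u : ℝ) (q : ℕ) : (Du u q : ℝ) ≤ (Real.log q) ^ u :=
  Nat.floor_le (Real.rpow_nonneg (Real.log_natCast_nonneg q) u)

theorem Du_gt (u : ℝ) (q : ℕ) : (Real.log q) ^ u < Du u q + 1 := Nat.lt_floor_add_one _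

/-- primes in a window -/
theorem card_window (n Y : ℕ) :
    ((upto Nat.Prime (n + Y)).filter (fun q => n < q)).card = cntP Nat.Prime n Y := by
  classical
  rw [cntP_eq]
  symm
  apply Finset.card_bij (fun h _ => n + h)
  · intro h hh
    rw [Finset.mem_filter, Finset.mem_Icc] at hh
    rw [Finset.mem_filter, mem_upto]
    exact ⟨⟨by omega, hh.2⟩, by omega⟩
  · intro a _ b _ hab
    omega
  · intro b hb
    rw [Finset.mem_filter, mem_upto] at hb
    refine ⟨b - n, ?_, by omega⟩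
    rw [Finset.mem_filter, Finset.mem_Icc]
    refine ⟨⟨by omega, by omega⟩, ?_⟩
    rw [show n + (b - n) = b by omega]
    exact hb.1.2

/-- the avoidance probability behind a window with few primes -/
theorem av_few {u κ ε δ : ℝ} (hu : 0 ≤ u) (hδ : δ < 1) {n h : ℕ} (hn : 3 ≤ n)
    (h1 : (Real.log n) ^ u + h ≤ ⌊(1 + ε) * (Real.log n) ^ u⌋₊)
    (h2 : (cntP Nat.Prime n ⌊(1 + ε) * (Real.log n) ^ u⌋₊ : ℝ) ≤ κ * (Real.log n) ^ (u - 1))
    (h3 : (h : ℝ) ≤ δ * (Real.log n) ^ u) :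
    Real.exp (-(κ * h / Real.log n / (1 - δ))) ≤ av Nat.Prime (Du u) (n + Du u n) h := by
  have hL : 0 < Real.log n := Real.log_pos (by exact_mod_cast (by omega : 1 < n))
  have hLu : 0 < (Real.log n) ^ u := Real.rpow_pos_of_pos hL u
  set Y := ⌊(1 + ε) * (Real.log n) ^ u⌋₊ with hY
  have hYle : Du u n + h ≤ Y := by
    have h4 : ((Du u n + h : ℕ) : ℝ) ≤ (Y : ℝ) := by
      push_cast
      linarith [Du_le u n]
    exact_mod_cast h4
  -- bounds for single probabilities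
  have g1 : ∀ q, n < q → pr (Du u) (Ioc (n + Du u n) (n + Du u n + h)) q ≤ h / (Real.log n) ^ u := by
    intro q hq
    refine (pr_Ioc_le _ _ _ q).trans ?_
    apply div_le_div_of_nonneg_left (Nat.cast_nonneg h) hLu
    refine le_trans ?_ (Du_gt u q).le
    apply Real.rpow_le_rpow hL.le _ hu
    exact Real.log_le_log (by exact_mod_cast (by omega : 0 < n)) (by exact_mod_cast hq.le)
  have g2 : ∀ q, 0 < q → q ≤ n → pr (Du u) (Ioc (n + Du u n) (n + Du u n + h)) q = 0 := by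
    intro q hq0 hq
    apply pr_zero
    intro m hm
    rw [Finset.mem_Ioc] at hm
    have := Du_mono hu hq0 hq
    left
    omega
  have g3 : ∀ q ∈ upto Nat.Prime (n + Du u n + h), pr (Du u) (Ioc (n + Du u n) (n + Du u n + h)) q ≤ δ := by
    intro q hq
    rw [mem_upto] at hq
    have hδ0 : 0 ≤ δ := by
      by_contra hcon
      push Not at hcon
      have : (0 : ℝ) ≤ h := Nat.cast_nonneg h
      nlinarith
    rcases lt_or_ge n q with h4 | h4
    · refine (g1 q h4).trans ?_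
      rw [div_le_iff₀ hLu]
      exact h3
    · rw [g2 q hq.2.pos h4]
      exact hδ0
  refine le_trans ?_ (av_ge hδ g3)
  apply Real.exp_le_exp.2
  apply neg_le_neg
  apply div_le_div_of_nonneg_right _ (by linarith)
  have g4 : ∑ q ∈ upto Nat.Prime (n + Du u n + h), pr (Du u) (Ioc (n + Du u n) (n + Du u n + h)) q ≤
      ∑ q ∈ (upto Nat.Prime (n + Y)).filter (fun q => n < q), (h : ℝ) / (Real.log n) ^ u := by
    rw [← Finset.sum_filter_add_sum_filter_not _ (fun q => n < q)]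
    have g5 : ∑ q ∈ (upto Nat.Prime (n + Du u n + h)).filter (fun q => ¬ n < q),
        pr (Du u) (Ioc (n + Du u n) (n + Du u n + h)) q = 0 := by
      apply Finset.sum_eq_zero
      intro q hq
      rw [Finset.mem_filter, mem_upto] at hq
      exact g2 q hq.1.2.pos (by omega)
    rw [g5, add_zero]
    calc _ ≤ ∑ q ∈ (upto Nat.Prime (n + Du u n + h)).filter (fun q => n < q), (h : ℝ) / (Real.log n) ^ u :=
          Finset.sum_le_sum fun q hq => g1 q (Finset.mem_filter.1 hq).2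
      _ ≤ _ := by
          apply Finset.sum_le_sum_of_subset_of_nonneg
          · apply Finset.filter_subset_filter
            apply upto_mono
            omega
          · intro q _ _
            positivity
  refine g4.trans ?_
  rw [Finset.sum_const, nsmul_eq_mul, card_window]
  calc (cntP Nat.Prime n Y : ℝ) * (h / (Real.log n) ^ u)
      ≤ κ * (Real.log n) ^ (u - 1) * (h / (Real.log n) ^ u) := by gcongr
    _ = κ * h / Real.log n := by
      rw [Real.rpow_sub_one hL.ne']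
      field_simp

/-- the set of starting points of windows with few primes -/
noncomputable def Few (κ ε u t : ℝ) (k : ℕ) : Finset ℕ := by
  classical
  exact (Ioc ⌊Real.exp ((1 - t) * Real.log ((2 : ℝ) ^ k))⌋₊ (2 ^ k)).filter
    (fun n => (cntP Nat.Prime n ⌊(1 + ε) * (Real.log n) ^ u⌋₊ : ℝ) ≤ κ * (Real.log n) ^ (u - 1))

theorem few_count {u κ ε t : ℝ} (hu : 2 ≤ u) (hu3 : u < 3) (hκ : 0 < κ) (hε : 0 < ε)
    (hc : (1 + ε) * (Real.exp Real.eulerMascheroniConstant * om u) < κ) (ht : 0 < t) :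
    ∀ᶠ k : ℕ in atTop, Real.exp ((1 - t) * Real.log ((2 : ℝ) ^ k)) ≤ (Few κ ε u t k).card := by
  classical
  have hpow : Tendsto (fun k : ℕ => 2 ^ k) atTop atTop := tendsto_pow_atTop_atTop_of_one_lt (by norm_num)
  have h1 := hpow.eventually (few_freq' hu hu3 hκ (by linarith : 0 < 1 + ε) hc (half_pos ht))
  filter_upwards [h1, tendsto_logk.eventually_ge_atTop (2 / t)] with k h1 h2
  set ℓ := Real.log ((2 : ℝ) ^ k) with hℓ
  have hX0 : (0 : ℝ) < 2 ^ k := by positivity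
  have eX : ((2 ^ k : ℕ) : ℝ) = 2 ^ k := by push_cast; rfl
  rw [eX, Real.rpow_def_of_pos hX0, ← hℓ] at h1
  have h3 : Real.exp (ℓ * (1 - t / 2)) = Real.exp ((1 - t) * ℓ) * Real.exp (t * ℓ / 2) := by
    rw [← Real.exp_add]
    congr 1
    ring
  have h4 : 2 ≤ Real.exp (t * ℓ / 2) := by
    have h5 : 1 ≤ t * ℓ / 2 := by
      rw [div_le_iff₀ ht] at h2
      linarith
    have := Real.add_one_le_exp (t * ℓ / 2)
    linarith
  set z := ⌊Real.exp ((1 - t) * ℓ)⌋₊ with hz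
  have h5 : (z : ℝ) ≤ Real.exp ((1 - t) * ℓ) := Nat.floor_le (Real.exp_pos _).le
  have h6 : NFu κ (1 + ε) u (2 ^ k) ≤ z + (Few κ ε u t k).card := by
    unfold NFu Few
    have h7 : (Icc 1 (2 ^ k)).filter (fun n : ℕ => (cntP Nat.Prime n ⌊(1 + ε) * (Real.log n) ^ u⌋₊ : ℝ) ≤
        κ * (Real.log n) ^ (u - 1)) ⊆ Icc 1 z ∪ (Ioc z (2 ^ k)).filter
        (fun n => (cntP Nat.Prime n ⌊(1 + ε) * (Real.log n) ^ u⌋₊ : ℝ) ≤ κ * (Real.log n) ^ (u - 1)) := by
      intro n hn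
      rw [Finset.mem_filter, Finset.mem_Icc] at hn
      rw [Finset.mem_union, Finset.mem_Icc, Finset.mem_filter, Finset.mem_Ioc]
      rcases le_or_gt n z with h | h
      · left
        exact ⟨hn.1.1, h⟩
      · right
        exact ⟨⟨h, hn.1.2⟩, hn.2⟩
    refine (Finset.card_le_card h7).trans ((Finset.card_union_le _ _).trans ?_)
    rw [Nat.card_Icc]
    simp only [Nat.add_sub_cancel]
    apply le_of_eq
    rfl
  have h7 : (NFu κ (1 + ε) u (2 ^ k) : ℝ) ≤ z + (Few κ ε u t k).card := by exact_mod_cast h6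
  have h8 : 0 < Real.exp ((1 - t) * ℓ) := Real.exp_pos _
  rw [h3] at h1
  nlinarith

theorem growth3 {u K K' : ℝ} (hu : 2 < u) (hK : 0 < K') :
    ∀ᶠ ℓ : ℝ in atTop, K * ℓ ^ 2 + 1 ≤ K' * ℓ ^ u := by
  have h1 := (tendsto_rpow_atTop (show 0 < u - 2 by linarith)).eventually_ge_atTop ((|K| + 1) / K')
  filter_upwards [h1, eventually_ge_atTop 1] with ℓ h2 h3
  rw [div_le_iff₀ hK] at h2
  have h4 : ℓ ^ u = ℓ ^ (u - 2) * ℓ ^ 2 := by
    rw [← Real.rpow_natCast ℓ 2, ← Real.rpow_add (by linarith)]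
    congr 1
    push_cast
    ring
  rw [h4]
  have h5 : 1 ≤ ℓ ^ 2 := by nlinarith
  have h6 := le_abs_self K
  calc K * ℓ ^ 2 + 1 ≤ (|K| + 1) * ℓ ^ 2 := by nlinarith
    _ ≤ (ℓ ^ (u - 2) * K') * ℓ ^ 2 := by gcongr
    _ = _ := by ring

set_option maxHeartbeats 4000000 in
theorem partB_J {u κ ε t c : ℝ} (hu : 2 < u) (hu3 : u < 3) (hκ : 0 < κ) (hε : 0 < ε)
    (hE : (1 + ε) * (Real.exp Real.eulerMascheroniConstant * om u) < κ) (ht : 0 < t) (ht8 : t < 1 / 8)
    (hc : 0 < c) (hcκ : κ * c ≤ 1 - 8 * t) :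
    ∀ᶠ k : ℕ in atTop, ∃ J : Finset ℕ, (∀ y ∈ J, k ≤ y ∧ y ≤ 2 ^ (k + 1)) ∧
      (∀ y ∈ J, ∀ y' ∈ J, y < y' → y + H c k ≤ y') ∧
      ((k : ℝ) + 1) ^ 2 ≤ ∑ y ∈ J, av Nat.Prime (Du u) y (H c k) := by
  classical
  set c₁ := c + t / κ with hc₁
  have hc1 : c < c₁ := by
    have : 0 < t / κ := by positivity
    linarith
  have hc10 : 0 < c₁ := hc.trans hc1
  have hκc1 : κ * c₁ ≤ 1 - 7 * t := by
    have : κ * c₁ = κ * c + t := by
      rw [hc₁]
      field_simp
    linarith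
  have f1 := H_le hc hc1
  have f2 := few_count hu.le hu3 hκ hε hE ht
  have hu0 : 0 ≤ u := by linarith
  have h1t : 0 < 1 - t := by linarith
  have hsc : Tendsto (fun ℓ : ℝ => (1 - t) * ℓ) atTop atTop := tendsto_id.const_mul_atTop h1t
  have hsk := hsc.comp tendsto_logk
  have f3 := hsk.eventually (growth3 (u := u) (K := c₁ / (1 - t) ^ 2) (K' := min ε t) hu (lt_min hε ht))
  have f4 := tendsto_logk.eventually (growth2 (t := 3 * t) (by positivity) 27 5)
  have f5 := tendsto_logk.eventually (growth2 (t := 1) (by positivity) 1 3)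
  have f6 := tendsto_logk.eventually (growth2 (t := 1 - t) h1t 3 1)
  filter_upwards [f1, f2, f3, f4, f5, f6, tendsto_logk.eventually_ge_atTop (c₁ + 1)] with k f1 f2 f3 f4 f5 f6 f7
  simp only [Function.comp_apply] at f3
  set h := H c k with hh
  have hX0 : (0 : ℝ) < 2 ^ k := by positivity
  have eX : ((2 ^ k : ℕ) : ℝ) = 2 ^ k := by push_cast; rfl
  set ℓ := Real.log ((2 : ℝ) ^ k) with hℓ
  have eexp : Real.exp ℓ = 2 ^ k := Real.exp_log hX0
  have hl1 : 1 ≤ ℓ := by linarith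
  have hl : 0 < ℓ := by linarith
  have hsimp : c₁ / (1 - t) ^ 2 * ((1 - t) * ℓ) ^ 2 = c₁ * ℓ ^ 2 := by field_simp
  rw [hsimp] at f3
  have g8 : (k : ℝ) + 1 ≤ 3 * ℓ := by
    have h5 : ℓ = k * Real.log 2 := by rw [hℓ, Real.log_pow]
    have h6 := Real.log_two_gt_d9
    have h7 : (0 : ℝ) ≤ k := Nat.cast_nonneg k
    nlinarith
  rw [pow_one] at f6
  -- properties of members
  have m0 : ∀ n ∈ Few κ ε u t k, Real.exp ((1 - t) * ℓ) < n ∧ n ≤ 2 ^ k ∧
      (cntP Nat.Prime n ⌊(1 + ε) * (Real.log n) ^ u⌋₊ : ℝ) ≤ κ * (Real.log n) ^ (u - 1) := by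
    intro n hn
    unfold Few at hn
    rw [Finset.mem_filter, Finset.mem_Ioc] at hn
    refine ⟨?_, hn.1.2, hn.2⟩
    exact (Nat.floor_lt (Real.exp_pos _).le).1 hn.1.1
  have m1 : ∀ n ∈ Few κ ε u t k, k + 1 ≤ n := by
    intro n hn
    have h5 : ((k + 1 : ℕ) : ℝ) < n := by
      push_cast
      linarith [(m0 n hn).1]
    have h6 : k + 1 < n := by exact_mod_cast h5
    omega
  have m3 : ∀ n ∈ Few κ ε u t k, 3 ≤ n := by
    intro n hn
    have h5 : ((3 : ℕ) : ℝ) < n := by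
      push_cast
      linarith [(m0 n hn).1]
    have h6 : 3 < n := by exact_mod_cast h5
    omega
  have m2 : ∀ n ∈ Few κ ε u t k, (1 - t) * ℓ ≤ Real.log n ∧ Real.log n ≤ ℓ := by
    intro n hn
    have hn0 : (0 : ℝ) < n := lt_trans (Real.exp_pos _) (m0 n hn).1
    constructor
    · rw [Real.le_log_iff_exp_le hn0]
      exact (m0 n hn).1.le
    · apply Real.log_le_log hn0
      exact_mod_cast (m0 n hn).2.1
  have m4 : ∀ n ∈ Few κ ε u t k, (Du u n : ℝ) + h ≤ 2 * ℓ ^ 3 := by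
    intro n hn
    have h5 := Du_le u n
    have h6 : (Real.log n) ^ u ≤ ℓ ^ u := Real.rpow_le_rpow (Real.log_natCast_nonneg n) (m2 n hn).2 hu0
    have h7 : ℓ ^ u ≤ ℓ ^ (3 : ℝ) := Real.rpow_le_rpow_of_exponent_le hl1 hu3.le
    have h8 : ℓ ^ (3 : ℝ) = ℓ ^ (3 : ℕ) := by
      rw [← Real.rpow_natCast]
      norm_num
    rw [h8] at h7
    have h9 : c₁ * ℓ ^ 2 ≤ ℓ ^ 3 := by
      have : 0 ≤ ℓ ^ 2 := by positivity
      nlinarith
    linarith
  have m5 : ∀ n ∈ Few κ ε u t k, (Du u n : ℝ) ≤ ℓ ^ 3 := by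
    intro n hn
    have h5 := Du_le u n
    have h6 : (Real.log n) ^ u ≤ ℓ ^ u := Real.rpow_le_rpow (Real.log_natCast_nonneg n) (m2 n hn).2 hu0
    have h7 : ℓ ^ u ≤ ℓ ^ (3 : ℝ) := Real.rpow_le_rpow_of_exponent_le hl1 hu3.le
    have h8 : ℓ ^ (3 : ℝ) = ℓ ^ (3 : ℕ) := by
      rw [← Real.rpow_natCast]
      norm_num
    rw [h8] at h7
    linarith
  have m6 : ∀ n ∈ Few κ ε u t k, Real.exp (-((1 - 4 * t) * ℓ)) ≤ av Nat.Prime (Du u) (n + Du u n) h := by
    intro n hn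
    obtain ⟨l1, l2⟩ := m2 n hn
    have h0 : 0 < (1 - t) * ℓ := by positivity
    have hLn : 0 < Real.log n := by linarith
    have h5 : ((1 - t) * ℓ) ^ u ≤ (Real.log n) ^ u := Real.rpow_le_rpow h0.le l1 hu0
    have h6 : 0 < ((1 - t) * ℓ) ^ u := Real.rpow_pos_of_pos h0 u
    have h7 : c₁ * ℓ ^ 2 + 1 ≤ ε * (Real.log n) ^ u := by
      refine f3.trans ?_
      exact mul_le_mul (min_le_left _ _) h5 h6.le hε.le
    have h8 : c₁ * ℓ ^ 2 + 1 ≤ t * (Real.log n) ^ u := by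
      refine f3.trans ?_
      exact mul_le_mul (min_le_right _ _) h5 h6.le ht.le
    have key := av_few (κ := κ) (ε := ε) (δ := t) (h := h) hu0 (by linarith) (m3 n hn) (by
      have := Nat.lt_floor_add_one ((1 + ε) * (Real.log n) ^ u)
      linarith) (m0 n hn).2.2 (by linarith)
    refine le_trans ?_ key
    apply Real.exp_le_exp.2
    apply neg_le_neg
    rw [div_div, div_le_iff₀ (by positivity)]
    have h9 : (1 - 7 * t) ≤ (1 - 4 * t) * (1 - t) ^ 2 := by
      nlinarith [sq_nonneg t, ht, mul_pos ht ht]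
    calc κ * h ≤ κ * (c₁ * ℓ ^ 2) := by gcongr
      _ = (κ * c₁) * ℓ ^ 2 := by ring
      _ ≤ (1 - 7 * t) * ℓ ^ 2 := by gcongr
      _ ≤ ((1 - 4 * t) * (1 - t) ^ 2) * ℓ ^ 2 := by gcongr
      _ = (1 - 4 * t) * ℓ * (((1 - t) * ℓ) * (1 - t)) := by ring
      _ ≤ (1 - 4 * t) * ℓ * (Real.log n * (1 - t)) := by
        have : 0 ≤ (1 - 4 * t) * ℓ := mul_nonneg (by linarith) hl.le
        gcongr
  -- a residue class
  set W := ⌈2 * ℓ ^ 3⌉₊ with hW
  have hWge : 2 * ℓ ^ 3 ≤ W := Nat.le_ceil _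
  have hWle : (W : ℝ) ≤ 3 * ℓ ^ 3 := by
    have h5 : (W : ℝ) < 2 * ℓ ^ 3 + 1 := Nat.ceil_lt_add_one (by positivity)
    have h6 : 1 ≤ ℓ ^ 3 := one_le_pow₀ hl1
    linarith
  have hW0 : (0 : ℝ) < W := by
    have : 0 < ℓ ^ 3 := by positivity
    linarith
  have hW0' : 0 < W := by exact_mod_cast hW0
  obtain ⟨r, hr, hrc⟩ := Finset.exists_le_card_fiber_of_nsmul_le_card_of_maps_to
    (s := Few κ ε u t k) (t := range W) (f := fun n => n % W) (b := (Few κ ε u t k).card / (W : ℝ))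
    (fun n _ => Finset.mem_range.2 (Nat.mod_lt _ hW0')) ⟨0, Finset.mem_range.2 hW0'⟩ (by
      rw [Finset.card_range, nsmul_eq_mul]
      apply le_of_eq
      field_simp)
  set F := (Few κ ε u t k).filter (fun n => n % W = r) with hF
  have hFm : ∀ n ∈ F, n ∈ Few κ ε u t k ∧ n % W = r := fun n hn => Finset.mem_filter.1 hn
  have hmono : ∀ n ∈ F, ∀ n' ∈ F, n < n' → n + Du u n < n' + Du u n' := by
    intro n hn n' hn' hlt
    have := Du_mono hu0 (by have := m3 n (hFm n hn).1; omega : 0 < n) hlt.le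
    omega
  have hinj : Set.InjOn (fun n => n + Du u n) (F : Set ℕ) := by
    intro a ha b hb hab
    simp only at hab
    rcases lt_trichotomy a b with h5 | h5 | h5
    · have := hmono a ha b hb h5
      omega
    · exact h5
    · have := hmono b hb a ha h5
      omega
  refine ⟨F.image (fun n => n + Du u n), ?_, ?_, ?_⟩
  · intro y hy
    rw [Finset.mem_image] at hy
    obtain ⟨n, hn, rfl⟩ := hy
    have h5 := (hFm n hn).1
    have h6 := m1 n h5
    refine ⟨by omega, ?_⟩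
    have h7 : ((n + Du u n : ℕ) : ℝ) ≤ ((2 ^ (k + 1) : ℕ) : ℝ) := by
      push_cast
      have h8 : (n : ℝ) ≤ 2 ^ k := by exact_mod_cast (m0 n h5).2.1
      have h9 := m5 n h5
      rw [one_mul, one_mul, eexp] at f5
      rw [pow_succ]
      linarith
    exact_mod_cast h7
  · intro y hy y' hy' hyy
    rw [Finset.mem_image] at hy hy'
    obtain ⟨n, hn, rfl⟩ := hy
    obtain ⟨n', hn', rfl⟩ := hy'
    have h5 : n < n' := by
      by_contra hcon
      push Not at hcon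
      rcases hcon.lt_or_eq with h6 | h6
      · have := hmono n' hn' n hn h6
        omega
      · subst h6
        exact lt_irrefl _ hyy
    have h6 : n + W ≤ n' := by
      have h7 : n' % W = n % W := by rw [(hFm n hn).2, (hFm n' hn').2]
      have h8 : W ∣ n' - n := (Nat.modEq_iff_dvd' h5.le).1 h7.symm
      have := Nat.le_of_dvd (by omega) h8
      omega
    have h7 : Du u n + h ≤ W := by
      have h8 : ((Du u n + h : ℕ) : ℝ) ≤ (W : ℝ) := by
        push_cast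
        linarith [m4 n (hFm n hn).1]
      exact_mod_cast h8
    omega
  · rw [Finset.sum_image hinj]
    have h5 : ∀ n ∈ F, Real.exp (-((1 - 4 * t) * ℓ)) ≤ av Nat.Prime (Du u) (n + Du u n) h :=
      fun n hn => m6 n (hFm n hn).1
    refine le_trans ?_ (Finset.sum_le_sum h5)
    rw [Finset.sum_const, nsmul_eq_mul]
    have h6 : Real.exp ((1 - t) * ℓ) / W ≤ (F.card : ℝ) := by
      refine le_trans ?_ hrc
      gcongr
    have h7 : Real.exp ((1 - t) * ℓ) / W * Real.exp (-((1 - 4 * t) * ℓ)) = Real.exp (3 * t * ℓ) / W := by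
      rw [div_mul_eq_mul_div, ← Real.exp_add]
      congr 2
      ring
    calc ((k : ℝ) + 1) ^ 2 ≤ (3 * ℓ) ^ 2 := by gcongr
      _ ≤ Real.exp (3 * t * ℓ) / W := by
        rw [le_div_iff₀ hW0]
        calc (3 * ℓ) ^ 2 * (W : ℝ) ≤ (3 * ℓ) ^ 2 * (3 * ℓ ^ 3) := by gcongr
          _ = 27 * ℓ ^ 5 := by ring
          _ ≤ _ := f4
      _ = Real.exp ((1 - t) * ℓ) / W * Real.exp (-((1 - 4 * t) * ℓ)) := h7.symm
      _ ≤ _ := by gcongr

theorem partB {u : ℝ} {Ω : Type} [MeasurableSpace Ω] {μ : Measure Ω} {X : ℕ → Ω → ℕ} (hX : Disp μ X (Du u))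
    (hu : 2 < u) (hu3 : u < 3) {c : ℝ} (hc : c * (Real.exp Real.eulerMascheroniConstant * om u) < 1) :
    ∀ᵐ ω ∂μ, ∀ᶠ x : ℕ in atTop, c * Real.log x ^ 2 ≤ (G (moved Nat.Prime X ω) x : ℝ) := by
  set E := Real.exp Real.eulerMascheroniConstant * om u with hE
  have hE0 : 0 < E := mul_pos (Real.exp_pos _) (om_pos hu.le)
  have h1 : max c 0 < 1 / E := by
    apply max_lt
    · rwa [lt_div_iff₀ hE0]
    · positivity
  obtain ⟨c', hc1, hc2⟩ := exists_between h1
  have hc0 : 0 < c' := lt_of_le_of_lt (le_max_right _ _) hc1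
  have hcc : c ≤ c' := (le_max_left c 0).trans hc1.le
  have h2 : E < 1 / c' := by
    rw [lt_div_iff₀ hE0] at hc2
    rw [lt_div_iff₀ hc0]
    linarith
  obtain ⟨κ, hκ1, hκ2⟩ := exists_between h2
  have hκ : 0 < κ := hE0.trans hκ1
  rw [lt_div_iff₀ hc0] at hκ2
  obtain ⟨t, ht, ht8, htc⟩ : ∃ t : ℝ, 0 < t ∧ t < 1 / 8 ∧ κ * c' ≤ 1 - 8 * t := by
    refine ⟨min ((1 - κ * c') / 8) (1 / 16), ?_, ?_, ?_⟩
    · apply lt_min
      · linarith
      · norm_num
    · exact lt_of_le_of_lt (min_le_right _ _) (by norm_num)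
    · have := min_le_left ((1 - κ * c') / 8) (1 / 16)
      linarith
  have hε : 0 < (κ / E - 1) / 2 := by
    have : 1 < κ / E := by rwa [one_lt_div hE0]
    linarith
  have hεE : (1 + (κ / E - 1) / 2) * E < κ := by
    have : (1 + (κ / E - 1) / 2) * E = (κ + E) / 2 := by
      field_simp
      ring
    rw [this]
    linarith
  have hJ := partB_J hu hu3 hκ hε hεE ht ht8 hc0 htc
  obtain ⟨J, hJ⟩ := hJ.choice
  have key := ae_lower hX primes_infinite hc0.le J (H c') (hJ.mono fun k hk => hk.1)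
    (hJ.mono fun k hk => hk.2.1) (Eventually.of_forall fun k => H_ge _ k) (hJ.mono fun k hk => hk.2.2)
  filter_upwards [key] with ω hω
  filter_upwards [hω] with x hx
  refine le_trans ?_ hx
  gcongr

end Pool.Agent.Q268.DP
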