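import Mathlib
import Pool.Agent.Q268.DP.A

/-!
The upper bound for the largest gap from lower bounds for the mean number of arrivals.
-/

set_option autoImplicit false

namespace Pool.Agent.Q268.DP

open Filter Finset MeasureTheory ProbabilityTheory
open scoped ENNReal Topology

variable {D : ℕ → ℕ}

theorem tlog : Tendsto (fun n : ℕ => Real.log n) atTop atTop :=
  Real.tendsto_log_atTop.comp tendsto_natCast_atTop_atTop

theorem upper_general {Ω : Type} [MeasurableSpace Ω] {μ : Measure Ω} {X : ℕ → Ω → ℕ} (hX : Disp μ X D)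
    {ρ c : ℝ} (hρ : 0 < ρ) (hc0 : 0 < c) (hc : 1 < c * ρ)
    (h : ∀ᶠ y : ℕ in atTop, ∃ Q : Finset ℕ,
      (∀ q ∈ Q, q.Prime ∧ q ≤ y ∧ y + ⌊c * Real.log y ^ 2⌋₊ ≤ q + D q) ∧
      ρ / Real.log y ≤ ∑ q ∈ Q, 1 / ((D q : ℝ) + 1)) :
    ∀ᵐ ω ∂μ, ∀ᶠ x : ℕ in atTop, (G (moved Nat.Prime X ω) x : ℝ) ≤ c * Real.log x ^ 2 := by
  set δ := (c * ρ - 1) / 2 with hδ
  have hδ0 : 0 < δ := by
    rw [hδ]
    linarith
  apply ae_upper hX primes_infinite hc0 hδ0
  filter_upwards [h, eventually_gt_atTop 1, tlog.eventually_ge_atTop (ρ / δ + 1)] with y hy hy1 hy2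
  obtain ⟨Q, hQ1, hQ2⟩ := hy
  set hh := ⌊c * Real.log y ^ 2⌋₊ with hhdef
  have hL : 0 < Real.log y := by
    have : 0 < ρ / δ := by positivity
    linarith
  have hsub : Q ⊆ upto Nat.Prime (y + hh) := by
    intro q hq
    rw [mem_upto]
    exact ⟨by have := (hQ1 q hq).2.1; omega, (hQ1 q hq).1⟩
  refine (av_le Q hsub).trans ?_
  have e1 : ∑ q ∈ Q, pr D (Ioc y (y + hh)) q = hh * ∑ q ∈ Q, 1 / ((D q : ℝ) + 1) := by
    rw [Finset.mul_sum]
    refine Finset.sum_congr rfl fun q hq => ?_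
    rw [pr_full (hQ1 q hq).2.1 (hQ1 q hq).2.2]
    ring
  rw [e1, Real.rpow_def_of_pos (by exact_mod_cast (by omega : 0 < y))]
  apply Real.exp_le_exp.2
  have h1 : c * Real.log y ^ 2 - 1 ≤ hh := by
    have := Nat.lt_floor_add_one (c * Real.log y ^ 2)
    linarith
  have h2 : 0 ≤ (hh : ℝ) := Nat.cast_nonneg _
  have h3 : (c * Real.log y ^ 2 - 1) * (ρ / Real.log y) ≤ hh * ∑ q ∈ Q, 1 / ((D q : ℝ) + 1) := by
    calc (c * Real.log y ^ 2 - 1) * (ρ / Real.log y) ≤ hh * (ρ / Real.log y) := by gcongr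
      _ ≤ _ := by gcongr
  have h4 : (c * Real.log y ^ 2 - 1) * (ρ / Real.log y) = c * ρ * Real.log y - ρ / Real.log y := by
    field_simp
  have h5 : ρ / Real.log y ≤ δ * Real.log y := by
    rw [div_le_iff₀ hL]
    have h6 : ρ ≤ δ * Real.log y := by
      have : ρ / δ ≤ Real.log y := by linarith
      rw [div_le_iff₀ hδ0] at this
      linarith
    have h7 : 1 ≤ Real.log y := by
      have : 0 < ρ / δ := by positivity
      linarith
    nlinarith
  have h6 : c * ρ = 1 + 2 * δ := by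
    rw [hδ]
    ring
  have h7 : Real.log y * -(1 + δ) = -((1 + δ) * Real.log y) := by ring
  rw [h7]
  apply neg_le_neg
  rw [h4, h6] at h3
  nlinarith

end Pool.Agent.Q268.DP
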