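import Mathlib
import Pool.Agent.Q268.DP.Upper
import Pool.Agent.H442R2.EHI.PntErr

/-!
Displacements of size `q / (log q)^B`: the largest gap is at most `(1 + o(1)) log² x`.
-/

set_option autoImplicit false

namespace Pool.Agent.Q268.DP

open Filter Finset MeasureTheory ProbabilityTheory
open scoped ENNReal Topology

/-- `⌊q / (log q)^B⌋` -/
noncomputable def DB (B : ℝ) (q : ℕ) : ℕ := ⌊(q : ℝ) / (Real.log q) ^ B⌋₊

theorem growthR (K A : ℝ) {ε : ℝ} (hε : 0 < ε) : ∀ᶠ s : ℝ in atTop, K * s ^ A ≤ ε * Real.exp s := by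
  have h1 := (tendsto_exp_mul_div_rpow_atTop A 1 one_pos).eventually_ge_atTop (K / ε)
  filter_upwards [h1, eventually_gt_atTop 0] with s h2 h3
  have h4 : 0 < s ^ A := Real.rpow_pos_of_pos h3 A
  rw [div_le_div_iff₀ hε h4, one_mul] at h2
  linarith

/-- primes in `(z, y]` -/
noncomputable def prs (z y : ℕ) : Finset ℕ := (Ioc z y).filter Nat.Prime

theorem mem_prs {z y q : ℕ} : q ∈ prs z y ↔ (z < q ∧ q ≤ y) ∧ q.Prime := by
  unfold prs
  rw [Finset.mem_filter, Finset.mem_Ioc]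

theorem theta_diff (z y : ℕ) (h : z ≤ y) :
    Chebyshev.theta (y : ℝ) - Chebyshev.theta (z : ℝ) ≤ (prs z y).card * Real.log y := by
  unfold Chebyshev.theta
  rw [Nat.floor_natCast, Nat.floor_natCast]
  have h1 : (Ioc 0 z).filter Nat.Prime ⊆ (Ioc 0 y).filter Nat.Prime := by
    apply Finset.filter_subset_filter
    exact Finset.Ioc_subset_Ioc_right h
  rw [← Finset.sum_sdiff h1, add_sub_cancel_right]
  have h2 : (Ioc 0 y).filter Nat.Prime \ (Ioc 0 z).filter Nat.Prime = prs z y := by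
    ext q
    simp only [Finset.mem_sdiff, Finset.mem_filter, Finset.mem_Ioc, mem_prs]
    constructor
    · rintro ⟨⟨⟨h1, h2⟩, h3⟩, h4⟩
      refine ⟨⟨?_, h2⟩, h3⟩
      by_contra hcon
      push Not at hcon
      exact h4 ⟨⟨h1, hcon⟩, h3⟩
    · rintro ⟨⟨h1, h2⟩, h3⟩
      refine ⟨⟨⟨by omega, h2⟩, h3⟩, ?_⟩
      rintro ⟨⟨_, h4⟩, _⟩
      omega
  rw [h2, ← nsmul_eq_mul]
  apply Finset.sum_le_card_nsmul
  intro q hq
  rw [mem_prs] at hq
  exact Real.log_le_log (by exact_mod_cast (by omega : 0 < q)) (by exact_mod_cast hq.1.2)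

theorem shift_ratio (B : ℝ) (hB : 0 < B) {t : ℝ} (ht : 0 < t) :
    ∀ᶠ s : ℝ in atTop, (s / (s - Real.log 2)) ^ B ≤ 1 + t := by
  have h1 : Tendsto (fun s : ℝ => s / (-Real.log 2 + s)) atTop (𝓝 1) := log_ratio _
  have h2 : Tendsto (fun s : ℝ => (s / (-Real.log 2 + s)) ^ B) atTop (𝓝 (1 ^ B)) :=
    h1.rpow_const (Or.inr hB.le)
  rw [Real.one_rpow] at h2
  filter_upwards [h2.eventually_le_const (show (1 : ℝ) < 1 + t by linarith)] with s hs
  rwa [show s - Real.log 2 = -Real.log 2 + s by ring]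

/-- `C z / (log z)^U` is small compared with `M` for `y / 2 ≤ z ≤ y` -/
theorem err_small {B C t : ℝ} (hB : 0 < B) (hC : 0 < C) (ht : 0 < t) (U : ℕ) (hU : B + 1 ≤ U) :
    ∀ᶠ s : ℝ in atTop, ∀ y z : ℝ, 0 < y → Real.log y = s → y / 2 ≤ z → z ≤ y →
      C * (z / Real.log z ^ U) ≤ t * (y / s ^ B) := by
  filter_upwards [eventually_ge_atTop (max 2 (C * 2 ^ U / t))] with s hs y z hy hys hz1 hz2
  have hs2 : 2 ≤ s := (le_max_left _ _).trans hs
  have hs3 : C * 2 ^ U / t ≤ s := (le_max_right _ _).trans hs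
  have hl2 := Real.log_two_lt_d9
  have hz0 : 0 < z := by linarith
  have h1 : s - Real.log 2 ≤ Real.log z := by
    rw [← hys, ← Real.log_div hy.ne' (by norm_num)]
    exact Real.log_le_log (by linarith) hz1
  have h2 : s / 2 ≤ Real.log z := by linarith
  have h3 : 0 < s / 2 := by linarith
  have h4 : z / Real.log z ^ U ≤ y / (s / 2) ^ U := by
    apply div_le_div₀ hy.le hz2 (by positivity)
    exact pow_le_pow_left₀ h3.le h2 U
  have h5 : s ^ (B + 1) ≤ s ^ U := by
    rw [← Real.rpow_natCast s U]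
    exact Real.rpow_le_rpow_of_exponent_le (by linarith) hU
  have h6 : s ^ (B + 1) = s ^ B * s := Real.rpow_add_one (by linarith) B
  have h7 : 0 < s ^ B := Real.rpow_pos_of_pos (by linarith) B
  calc C * (z / Real.log z ^ U) ≤ C * (y / (s / 2) ^ U) := by gcongr
    _ = C * 2 ^ U * (y / s ^ U) := by
      rw [div_pow]
      field_simp
    _ ≤ C * 2 ^ U * (y / (s ^ B * s)) := by
      rw [← h6]
      gcongr
    _ = (C * 2 ^ U / s) * (y / s ^ B) := by
      field_simp
    _ ≤ t * (y / s ^ B) := by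
      gcongr
      rw [div_le_iff₀ (by linarith)]
      rw [div_le_iff₀ ht] at hs3
      linarith

set_option maxHeartbeats 4000000 in
theorem partC_Q {B : ℝ} (hB : 0 < B) {c t : ℝ} (hc : 0 < c) (ht : 0 < t) (ht4 : t < 1 / 4) :
    ∀ᶠ y : ℕ in atTop, ∃ Q : Finset ℕ,
      (∀ q ∈ Q, q.Prime ∧ q ≤ y ∧ y + ⌊c * Real.log y ^ 2⌋₊ ≤ q + DB B q) ∧
      ((1 - 2 * t) / (1 + t)) / Real.log y ≤ ∑ q ∈ Q, 1 / ((DB B q : ℝ) + 1) := by
  obtain ⟨C, hC, hth⟩ := Pool.Agent.H442R2.EHI.PntErrAux.thetaU (⌈B⌉₊ + 1)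
  have hU : B + 1 ≤ ((⌈B⌉₊ + 1 : ℕ) : ℝ) := by
    push_cast
    linarith [Nat.le_ceil B]
  have f1 := tlog.eventually (shift_ratio B hB (half_pos ht))
  have f2 := tlog.eventually (err_small (t := t / 8) hB hC (by positivity) (⌈B⌉₊ + 1) hU)
  have f3 := tlog.eventually ((tendsto_rpow_atTop hB).eventually_ge_atTop (2 / t + 2))
  have f4 := tlog.eventually (growthR c (B + 2) (ε := t / 8) (by positivity))
  have f5 := tlog.eventually (growthR 1 B (ε := t / 8) (by positivity))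
  filter_upwards [f1, f2, f3, f4, f5, tlog.eventually_ge_atTop 2, eventually_ge_atTop 10] with y f1 f2 f3 f4 f5 f6 hy
  set s := Real.log y with hs
  have hy0 : (0 : ℝ) < y := by exact_mod_cast (by omega : 0 < y)
  have eexp : Real.exp s = y := Real.exp_log hy0
  rw [eexp] at f4 f5
  have hs0 : 0 < s := by linarith
  have hsB : 0 < s ^ B := Real.rpow_pos_of_pos hs0 B
  set M := (y : ℝ) / s ^ B with hM
  have hM0 : 0 < M := by positivity
  have g1 : 1 ≤ t / 8 * M := by
    rw [hM, ← mul_div_assoc, le_div_iff₀ hsB]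
    exact f5
  have g2 : c * s ^ 2 ≤ t / 8 * M := by
    rw [hM, ← mul_div_assoc, le_div_iff₀ hsB]
    refine le_trans (le_of_eq ?_) f4
    have : s ^ (B + 2) = s ^ B * s ^ 2 := by
      rw [Real.rpow_add hs0]
      norm_num
    rw [this]
    ring
  have g3 : M ≤ y / 2 := by
    rw [hM]
    apply div_le_div_of_nonneg_left hy0.le (by norm_num)
    have : 0 < 2 / t := by positivity
    linarith
  have g4 : M / s ^ B ≤ t / 2 * M := by
    rw [div_le_iff₀ hsB]
    have h5 : 1 ≤ t / 2 * s ^ B := by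
      have h6 : 2 / t ≤ s ^ B := by linarith
      rw [div_le_iff₀ ht] at h6
      linarith
    nlinarith
  set L := ⌊(1 - t) * M⌋₊ with hL
  have hLle : (L : ℝ) ≤ (1 - t) * M := Nat.floor_le (mul_nonneg (by linarith) hM0.le)
  have hLge : (1 - t) * M - 1 < L := by
    have := Nat.lt_floor_add_one ((1 - t) * M)
    linarith
  have htM : (1 - t) * M ≤ M := by
    have : 0 ≤ t * M := by positivity
    linarith
  have hLy : L ≤ y := by
    have h5 : (L : ℝ) ≤ y := by linarith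
    exact_mod_cast h5
  have hzc : ((y - L : ℕ) : ℝ) = y - L := Nat.cast_sub hLy
  -- members of the interval
  have hm : ∀ q : ℕ, y - L < q → q ≤ y → (y : ℝ) - (1 - t) * M ≤ q := by
    intro q h1 _
    have h5 : ((y - L : ℕ) : ℝ) < q := by exact_mod_cast h1
    rw [hzc] at h5
    linarith
  have hlogq : ∀ q : ℕ, y - L < q → q ≤ y → s - Real.log 2 ≤ Real.log q ∧ Real.log q ≤ s := by
    intro q h1 h2
    have h5 := hm q h1 h2
    have h6 : (y : ℝ) / 2 ≤ q := by linarith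
    constructor
    · rw [hs, ← Real.log_div hy0.ne' (by norm_num)]
      exact Real.log_le_log (by linarith) h6
    · exact Real.log_le_log (by linarith) (by exact_mod_cast h2)
  have hl2 := Real.log_two_lt_d9
  have hsl : 0 < s - Real.log 2 := by linarith
  have hDle : ∀ q : ℕ, y - L < q → q ≤ y → (DB B q : ℝ) + 1 ≤ (1 + t) * M := by
    intro q h1 h2
    obtain ⟨l1, l2⟩ := hlogq q h1 h2
    have h5 : (DB B q : ℝ) ≤ q / (Real.log q) ^ B := by
      unfold DB
      exact Nat.floor_le (div_nonneg (Nat.cast_nonneg q) (Real.rpow_nonneg (Real.log_natCast_nonneg q) B))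
    have h6 : (q : ℝ) / (Real.log q) ^ B ≤ y / (s - Real.log 2) ^ B := by
      apply div_le_div₀ hy0.le (by exact_mod_cast h2) (Real.rpow_pos_of_pos hsl B)
      exact Real.rpow_le_rpow hsl.le l1 hB.le
    have h7 : (y : ℝ) / (s - Real.log 2) ^ B = M * (s / (s - Real.log 2)) ^ B := by
      rw [Real.div_rpow hs0.le hsl.le, hM]
      field_simp
    have h8 : M * (s / (s - Real.log 2)) ^ B ≤ M * (1 + t / 2) := by gcongr
    nlinarith
  have hDge : ∀ q : ℕ, y - L < q → q ≤ y → y + ⌊c * s ^ 2⌋₊ ≤ q + DB B q := by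
    intro q h1 h2
    obtain ⟨l1, l2⟩ := hlogq q h1 h2
    have h5 : (q : ℝ) / (Real.log q) ^ B < DB B q + 1 := Nat.lt_floor_add_one _
    have hq := hm q h1 h2
    have hlq : 0 < Real.log q := by linarith
    have h6 : ((y : ℝ) - (1 - t) * M) / s ^ B ≤ q / (Real.log q) ^ B := by
      apply div_le_div₀ (Nat.cast_nonneg q) hq (Real.rpow_pos_of_pos hlq B)
      exact Real.rpow_le_rpow hlq.le l2 hB.le
    have h7 : ((y : ℝ) - (1 - t) * M) / s ^ B = M - (1 - t) * (M / s ^ B) := by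
      rw [hM]
      field_simp
    have h8 : (⌊c * s ^ 2⌋₊ : ℝ) ≤ c * s ^ 2 := Nat.floor_le (by positivity)
    have h9 : (1 - t) * (M / s ^ B) ≤ t / 2 * M := by
      have : 0 ≤ M / s ^ B := by positivity
      nlinarith
    have h10 : ((y + ⌊c * s ^ 2⌋₊ : ℕ) : ℝ) ≤ ((q + DB B q : ℕ) : ℝ) := by
      push_cast
      linarith
    exact_mod_cast h10
  refine ⟨prs (y - L) y, ?_, ?_⟩
  · intro q hq
    rw [mem_prs] at hq
    exact ⟨hq.2, hq.1.2, hDge q hq.1.1 hq.1.2⟩
  · have h1 := theta_diff (y - L) y (Nat.sub_le y L)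
    have h2 := hth y (by omega)
    have hz2 : (y : ℝ) / 2 ≤ ((y - L : ℕ) : ℝ) := by
      rw [hzc]
      linarith
    have hz3 : 2 ≤ y - L := by
      have h5 : ((2 : ℕ) : ℝ) ≤ ((y - L : ℕ) : ℝ) := by
        have h6 : (10 : ℝ) ≤ y := by exact_mod_cast hy
        push_cast
        linarith
      exact_mod_cast h5
    have h3 := hth (y - L) hz3
    have e1 := f2 y y hy0 rfl (by linarith) le_rfl
    have e2 := f2 y ((y - L : ℕ) : ℝ) hy0 rfl hz2 (by rw [hzc]; linarith [(Nat.cast_nonneg L : (0 : ℝ) ≤ L)])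
    rw [abs_le] at h2 h3
    rw [← hs] at h1 h2
    have h4 : (1 - 2 * t) * M ≤ (prs (y - L) y).card * s := by
      linarith [h2.1, h3.2]
    have h5 : ∀ q ∈ prs (y - L) y, 1 / ((1 + t) * M) ≤ 1 / ((DB B q : ℝ) + 1) := by
      intro q hq
      rw [mem_prs] at hq
      exact one_div_le_one_div_of_le (by positivity) (hDle q hq.1.1 hq.1.2)
    refine le_trans ?_ (Finset.sum_le_sum h5)
    rw [Finset.sum_const, nsmul_eq_mul]
    rw [div_div, div_le_iff₀ (by positivity)]
    have h6 : (prs (y - L) y).card * (1 / ((1 + t) * M)) * ((1 + t) * s) = (prs (y - L) y).card * s / M := by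
      field_simp
    rw [h6, le_div_iff₀ hM0]
    exact h4

theorem partC {B : ℝ} (hB : 0 < B) {Ω : Type} [MeasurableSpace Ω] {μ : Measure Ω} {X : ℕ → Ω → ℕ}
    (hX : Disp μ X (DB B)) {c : ℝ} (hc : 1 < c) :
    ∀ᵐ ω ∂μ, ∀ᶠ x : ℕ in atTop, (G (moved Nat.Prime X ω) x : ℝ) ≤ c * Real.log x ^ 2 := by
  set t := (c - 1) / (2 * (1 + 2 * c)) with ht
  have ht0 : 0 < t := by
    have : 0 < c - 1 := by linarith
    rw [ht]
    positivity
  have ht4 : t < 1 / 4 := by
    rw [ht, div_lt_iff₀ (by linarith)]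
    linarith
  have hcρ : 1 < c * ((1 - 2 * t) / (1 + t)) := by
    rw [← mul_div_assoc, one_lt_div (by linarith)]
    have h1 : t * (1 + 2 * c) = (c - 1) / 2 := by
      rw [ht]
      field_simp
    nlinarith
  exact upper_general hX (ρ := (1 - 2 * t) / (1 + t)) (div_pos (by linarith) (by linarith)) (by linarith) hcρ
    (partC_Q hB (by linarith) ht0 ht4)

/-- `q / (log q)^B` is large compared with `log² q` -/
theorem DB_large (B : ℝ) : Tendsto (fun q : ℕ => (DB B q : ℝ) / Real.log q ^ 2) atTop atTop := by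
  rw [tendsto_atTop]
  intro K
  have f1 := tlog.eventually (growthR (|K| + 1) (B + 2) (ε := 1) one_pos)
  filter_upwards [f1, tlog.eventually_ge_atTop 1, eventually_gt_atTop 0] with q f1 f2 hq
  set s := Real.log q with hs
  have hq0 : (0 : ℝ) < q := by exact_mod_cast hq
  have eexp : Real.exp s = q := Real.exp_log hq0
  rw [eexp, one_mul] at f1
  have hs0 : 0 < s := by linarith
  have hsB : 0 < s ^ B := Real.rpow_pos_of_pos hs0 B
  have h5 : (q : ℝ) / s ^ B < DB B q + 1 := Nat.lt_floor_add_one _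
  have h6 : (|K| + 1) * s ^ 2 ≤ q / s ^ B := by
    rw [le_div_iff₀ hsB]
    refine le_trans (le_of_eq ?_) f1
    have : s ^ (B + 2) = s ^ B * s ^ 2 := by
      rw [Real.rpow_add hs0]
      norm_num
    rw [this]
    ring
  rw [le_div_iff₀ (by positivity)]
  have h7 : K * s ^ 2 ≤ |K| * s ^ 2 := by
    gcongr
    exact le_abs_self K
  nlinarith

/-- `q / (log q)^B` is small compared with `q` -/
theorem DB_small {B : ℝ} (hB : 0 < B) : Tendsto (fun q : ℕ => (DB B q : ℝ) / q) atTop (𝓝 0) := by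
  have h1 : Tendsto (fun q : ℕ => ((Real.log q) ^ B)⁻¹) atTop (𝓝 0) :=
    tendsto_inv_atTop_zero.comp ((tendsto_rpow_atTop hB).comp tlog)
  refine squeeze_zero' (Eventually.of_forall fun q => by positivity) ?_ h1
  filter_upwards [eventually_gt_atTop 0] with q hq
  have hq0 : (0 : ℝ) < q := by exact_mod_cast hq
  have h5 : (DB B q : ℝ) ≤ q / (Real.log q) ^ B :=
    Nat.floor_le (div_nonneg (Nat.cast_nonneg q) (Real.rpow_nonneg (Real.log_natCast_nonneg q) B))
  rw [div_le_iff₀ hq0]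
  refine h5.trans (le_of_eq ?_)
  rw [div_eq_inv_mul]

end Pool.Agent.Q268.DP
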