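import Mathlib
import Pool.Agent.Q268.DP.C
import Pool.Agent.H295R3.Hoheisel

/-!
Displacements of size `q^θ`, `θ` near `1`: the largest gap is `O(log² x)`.
-/

set_option autoImplicit false

namespace Pool.Agent.Q268.DP

open Filter Finset MeasureTheory ProbabilityTheory
open scoped ENNReal Topology

/-- `⌊q^θ⌋` -/
noncomputable def Dθ (θ : ℝ) (q : ℕ) : ℕ := ⌊(q : ℝ) ^ θ⌋₊

set_option maxHeartbeats 4000000 in
theorem partD_Q {δ η θ c : ℝ} {X₀ : ℕ} (hδ1 : δ < 1) (hη : 0 < η)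
    (hH : ∀ X Y : ℕ, X₀ ≤ X → (X : ℝ) ^ (1 - δ) ≤ Y → Y ≤ X →
      η * Y / Real.log X ≤ (((Ioc X (X + Y)).filter Nat.Prime).card : ℝ))
    (hθ : 1 - δ < θ) (hθ1 : θ < 1) (hc : 0 < c) :
    ∀ᶠ y : ℕ in atTop, ∃ Q : Finset ℕ,
      (∀ q ∈ Q, q.Prime ∧ q ≤ y ∧ y + ⌊c * Real.log y ^ 2⌋₊ ≤ q + Dθ θ q) ∧
      (η / 8) / Real.log y ≤ ∑ q ∈ Q, 1 / ((Dθ θ q : ℝ) + 1) := by
  have hθ0 : 0 < θ := by linarith
  have f1 := tendsto_natCast_atTop_atTop.eventually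
    ((tendsto_rpow_atTop (show 0 < θ - (1 - δ) by linarith)).eventually_ge_atTop 4)
  have f2 := tendsto_natCast_atTop_atTop.eventually
    ((tendsto_rpow_atTop (show 0 < 1 - θ by linarith)).eventually_ge_atTop 2)
  have f3 := tlog.eventually (growth2 hθ0 (4 * (c + 2)) 2)
  filter_upwards [f1, f2, f3, tlog.eventually_ge_atTop 1, eventually_ge_atTop (2 * X₀ + 10)] with y f1 f2 f3 f4 hy
  set s := Real.log y with hs
  have hy0 : (0 : ℝ) < y := by exact_mod_cast (by omega : 0 < y)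
  have hs0 : 0 < s := by linarith
  set M := (y : ℝ) ^ θ with hM
  have hM0 : 0 < M := Real.rpow_pos_of_pos hy0 θ
  have eM : M = Real.exp (θ * s) := by rw [hM, Real.rpow_def_of_pos hy0, mul_comm]
  rw [← eM] at f3
  have g0 : 1 ≤ s ^ 2 := by nlinarith
  have g1 : 4 * (y : ℝ) ^ (1 - δ) ≤ M := by
    have h1 : M = (y : ℝ) ^ (1 - δ) * (y : ℝ) ^ (θ - (1 - δ)) := by
      rw [hM, ← Real.rpow_add hy0]
      congr 1
      ring
    rw [h1]
    have h2 : 0 < (y : ℝ) ^ (1 - δ) := Real.rpow_pos_of_pos hy0 _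
    nlinarith
  have g2 : M ≤ y / 2 := by
    have h1 : (y : ℝ) = M * (y : ℝ) ^ (1 - θ) := by
      rw [hM, ← Real.rpow_add hy0]
      norm_num
    have h2 : M * 2 ≤ M * (y : ℝ) ^ (1 - θ) := by gcongr
    rw [← h1] at h2
    linarith
  have g3 : c * s ^ 2 + 2 ≤ M / 4 := by nlinarith
  have g4 : 0 ≤ c * s ^ 2 := by positivity
  set Y := ⌊M / 2⌋₊ with hY
  have hYle : (Y : ℝ) ≤ M / 2 := Nat.floor_le (by positivity)
  have hYge : M / 2 - 1 < Y := by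
    have := Nat.lt_floor_add_one (M / 2)
    linarith
  have hYy : Y ≤ y := by
    have h5 : (Y : ℝ) ≤ y := by linarith
    exact_mod_cast h5
  have hzc : ((y - Y : ℕ) : ℝ) = y - Y := Nat.cast_sub hYy
  have hz34 : 3 / 4 * (y : ℝ) ≤ ((y - Y : ℕ) : ℝ) := by
    rw [hzc]
    linarith
  have hX0 : X₀ ≤ y - Y := by
    have h5 : (X₀ : ℝ) ≤ ((y - Y : ℕ) : ℝ) := by
      have h6 : 2 * (X₀ : ℝ) + 10 ≤ y := by exact_mod_cast hy
      have h7 : (0 : ℝ) ≤ X₀ := Nat.cast_nonneg _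
      linarith
    exact_mod_cast h5
  have hkey := hH (y - Y) Y hX0 (by
    calc ((y - Y : ℕ) : ℝ) ^ (1 - δ) ≤ (y : ℝ) ^ (1 - δ) := by
          apply Real.rpow_le_rpow (Nat.cast_nonneg _) _ (by linarith)
          exact_mod_cast Nat.sub_le y Y
      _ ≤ Y := by linarith) (by
    have h5 : (Y : ℝ) ≤ ((y - Y : ℕ) : ℝ) := by
      rw [hzc]
      linarith
    exact_mod_cast h5)
  rw [Nat.sub_add_cancel hYy] at hkey
  have hQ : (Ioc (y - Y) y).filter Nat.Prime = prs (y - Y) y := rfl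
  rw [hQ] at hkey
  have hm : ∀ q : ℕ, y - Y < q → q ≤ y → (y : ℝ) - M / 2 ≤ q := by
    intro q h1 _
    have h5 : ((y - Y : ℕ) : ℝ) < q := by exact_mod_cast h1
    rw [hzc] at h5
    linarith
  have hDle : ∀ q : ℕ, q ≤ y → (Dθ θ q : ℝ) + 1 ≤ 2 * M := by
    intro q h2
    have h5 : (Dθ θ q : ℝ) ≤ (q : ℝ) ^ θ := Nat.floor_le (Real.rpow_nonneg (Nat.cast_nonneg q) θ)
    have h6 : (q : ℝ) ^ θ ≤ M := Real.rpow_le_rpow (Nat.cast_nonneg q) (by exact_mod_cast h2) hθ0.le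
    linarith
  have hDge : ∀ q : ℕ, y - Y < q → q ≤ y → y + ⌊c * s ^ 2⌋₊ ≤ q + Dθ θ q := by
    intro q h1 h2
    have h5 : (q : ℝ) ^ θ < Dθ θ q + 1 := Nat.lt_floor_add_one _
    have hq := hm q h1 h2
    have h6 : 3 / 4 * (y : ℝ) ≤ q := by linarith
    have h7 : (3 / 4 * (y : ℝ)) ^ θ ≤ (q : ℝ) ^ θ := Real.rpow_le_rpow (by positivity) h6 hθ0.le
    have h8 : (3 / 4 : ℝ) ≤ (3 / 4 : ℝ) ^ θ := by
      have := Real.rpow_le_rpow_of_exponent_ge (show (0 : ℝ) < 3 / 4 by norm_num) (by norm_num) hθ1.le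
      rwa [Real.rpow_one] at this
    rw [Real.mul_rpow (by norm_num) hy0.le] at h7
    have h9 : 3 / 4 * M ≤ (3 / 4 : ℝ) ^ θ * M := by gcongr
    have h10 : (⌊c * s ^ 2⌋₊ : ℝ) ≤ c * s ^ 2 := Nat.floor_le g4
    have h11 : ((y + ⌊c * s ^ 2⌋₊ : ℕ) : ℝ) ≤ ((q + Dθ θ q : ℕ) : ℝ) := by
      push_cast
      linarith
    exact_mod_cast h11
  refine ⟨prs (y - Y) y, ?_, ?_⟩
  · intro q hq
    rw [mem_prs] at hq
    exact ⟨hq.2, hq.1.2, hDge q hq.1.1 hq.1.2⟩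
  · have h5 : ∀ q ∈ prs (y - Y) y, 1 / (2 * M) ≤ 1 / ((Dθ θ q : ℝ) + 1) := by
      intro q hq
      rw [mem_prs] at hq
      exact one_div_le_one_div_of_le (by positivity) (hDle q hq.1.2)
    refine le_trans ?_ (Finset.sum_le_sum h5)
    rw [Finset.sum_const, nsmul_eq_mul]
    have h1 : (1 : ℝ) < ((y - Y : ℕ) : ℝ) := by
      have h6 : (10 : ℝ) ≤ y := by exact_mod_cast (by omega : 10 ≤ y)
      linarith
    have h2 : Real.log ((y - Y : ℕ) : ℝ) ≤ s := Real.log_le_log (by linarith) (by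
      exact_mod_cast Nat.sub_le y Y)
    have h3 : 0 < Real.log ((y - Y : ℕ) : ℝ) := Real.log_pos h1
    have h6 : η * (M / 4) / s ≤ (prs (y - Y) y).card := by
      refine le_trans ?_ hkey
      apply div_le_div₀ (by positivity) _ h3 h2
      gcongr
      linarith
    calc η / 8 / s = η * (M / 4) / s * (1 / (2 * M)) := by
          field_simp
          norm_num
      _ ≤ _ := by gcongr

theorem partD : ∃ θ₀ C : ℝ, 0 < θ₀ ∧ θ₀ < 1 ∧ 0 < C ∧ ∀ θ : ℝ, θ₀ < θ → θ < 1 →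
    ∀ {Ω : Type} [MeasurableSpace Ω] {μ : Measure Ω} {X : ℕ → Ω → ℕ}, Disp μ X (Dθ θ) →
    ∀ᵐ ω ∂μ, ∀ᶠ x : ℕ in atTop, (G (moved Nat.Prime X ω) x : ℝ) ≤ C * Real.log x ^ 2 := by
  obtain ⟨δ, η, hδ0, hδ1, hη, X₀, _, hH⟩ := Pool.Agent.H295R3.D.hoheisel
  refine ⟨1 - δ, 16 / η, by linarith, by linarith, by positivity, ?_⟩
  intro θ hθ hθ1 Ω _ μ X hX
  have hc : 0 < 16 / η := by positivity
  refine upper_general hX (ρ := η / 8) (by positivity) hc ?_ (partD_Q hδ1 hη hH hθ hθ1 hc)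
  have : 16 / η * (η / 8) = 2 := by
    field_simp
    norm_num
  rw [this]
  norm_num

/-- `q^θ` is large compared with `log² q` -/
theorem Dθ_large {θ : ℝ} (hθ : 0 < θ) : Tendsto (fun q : ℕ => (Dθ θ q : ℝ) / Real.log q ^ 2) atTop atTop := by
  rw [tendsto_atTop]
  intro K
  have f1 := tlog.eventually (growth2 hθ (|K| + 1) 2)
  filter_upwards [f1, tlog.eventually_ge_atTop 1, eventually_gt_atTop 0] with q f1 f2 hq
  set s := Real.log q with hs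
  have hq0 : (0 : ℝ) < q := by exact_mod_cast hq
  have eM : (q : ℝ) ^ θ = Real.exp (θ * s) := by rw [Real.rpow_def_of_pos hq0, mul_comm]
  have h5 : (q : ℝ) ^ θ < Dθ θ q + 1 := Nat.lt_floor_add_one _
  rw [le_div_iff₀ (by positivity)]
  have h7 : K * s ^ 2 ≤ |K| * s ^ 2 := by
    gcongr
    exact le_abs_self K
  rw [eM] at h5
  nlinarith

/-- `q^θ` is small compared with `q` -/
theorem Dθ_small {θ : ℝ} (hθ : θ < 1) : Tendsto (fun q : ℕ => (Dθ θ q : ℝ) / q) atTop (𝓝 0) := by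
  have h1 : Tendsto (fun q : ℕ => ((q : ℝ) ^ (1 - θ))⁻¹) atTop (𝓝 0) :=
    tendsto_inv_atTop_zero.comp ((tendsto_rpow_atTop (by linarith)).comp tendsto_natCast_atTop_atTop)
  refine squeeze_zero' (Eventually.of_forall fun q => by positivity) ?_ h1
  filter_upwards [eventually_gt_atTop 0] with q hq
  have hq0 : (0 : ℝ) < q := by exact_mod_cast hq
  have h5 : (Dθ θ q : ℝ) ≤ (q : ℝ) ^ θ := Nat.floor_le (Real.rpow_nonneg (Nat.cast_nonneg q) θ)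
  rw [div_le_iff₀ hq0]
  refine h5.trans (le_of_eq ?_)
  rw [← Real.rpow_neg hq0.le]
  nth_rewrite 3 [← Real.rpow_one (q : ℝ)]
  rw [← Real.rpow_add hq0]
  congr 1
  ring

end Pool.Agent.Q268.DP
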