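import Mathlib
import Pool.Agent.Q268.DP.B
import Pool.Agent.Q225.MG.Mat
import Pool.Agent.Q120.MG.D5

/-!
Displacements of size `(log q)^u`, every `u > 2`: the largest gap is at least `(1 / κ - o(1)) log² x`
with some `κ = κ(u) < 1`.
-/

set_option autoImplicit false

namespace Pool.Agent.Q268.DP

open Filter Finset MeasureTheory ProbabilityTheory
open scoped ENNReal Topology
open Pool.Agent.H510R2.Maier (cntP cntP_eq)
open Pool.Agent.Q110.RS.M (NFu)

theorem few_count' {u κ ε t : ℝ}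
    (hf : ∀ η : ℝ, 0 < η → ∀ᶠ x : ℕ in atTop, (x : ℝ) ^ (1 - η) ≤ NFu κ (1 + ε) u x) (ht : 0 < t) :
    ∀ᶠ k : ℕ in atTop, Real.exp ((1 - t) * Real.log ((2 : ℝ) ^ k)) ≤ (Few κ ε u t k).card := by
  classical
  have hpow : Tendsto (fun k : ℕ => 2 ^ k) atTop atTop := tendsto_pow_atTop_atTop_of_one_lt (by norm_num)
  have h1 := hpow.eventually (hf _ (half_pos ht))
  filter_upwards [h1, tendsto_logk.eventually_ge_atTop (2 / t)] with k h1 h2
  set ℓ := Real.log ((2 : ℝ) ^ k) with hℓ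
  have hX0 : (0 : ℝ) < 2 ^ k := by positivity
  have eX : ((2 ^ k : ℕ) : ℝ) = 2 ^ k := by push_cast; rfl
  rw [eX, Real.rpow_def_of_pos hX0, ← hℓ] at h1
  have h3 : Real.exp (ℓ * (1 - t / 2)) = Real.exp ((1 - t) * ℓ) * Real.exp (t * ℓ / 2) := by
    rw [← Real.exp_add]
    congr 1
    ring
  have h4 : 2 ≤ Real.exp (t * ℓ / 2) := by
    have h5 : 1 ≤ t * ℓ / 2 := by
      rw [div_le_iff₀ ht] at h2
      linarith
    have := Real.add_one_le_exp (t * ℓ / 2)
    linarith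
  set z := ⌊Real.exp ((1 - t) * ℓ)⌋₊ with hz
  have h5 : (z : ℝ) ≤ Real.exp ((1 - t) * ℓ) := Nat.floor_le (Real.exp_pos _).le
  have h6 : NFu κ (1 + ε) u (2 ^ k) ≤ z + (Few κ ε u t k).card := by
    unfold NFu Few
    have h7 : (Icc 1 (2 ^ k)).filter (fun n : ℕ => (cntP Nat.Prime n ⌊(1 + ε) * (Real.log n) ^ u⌋₊ : ℝ) ≤
        κ * (Real.log n) ^ (u - 1)) ⊆ Icc 1 z ∪ (Ioc z (2 ^ k)).filter
        (fun n => (cntP Nat.Prime n ⌊(1 + ε) * (Real.log n) ^ u⌋₊ : ℝ) ≤ κ * (Real.log n) ^ (u - 1)) := by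
      intro n hn
      rw [Finset.mem_filter, Finset.mem_Icc] at hn
      rw [Finset.mem_union, Finset.mem_Icc, Finset.mem_filter, Finset.mem_Ioc]
      rcases le_or_gt n z with h | h
      · left
        exact ⟨hn.1.1, h⟩
      · right
        exact ⟨⟨h, hn.1.2⟩, hn.2⟩
    refine (Finset.card_le_card h7).trans ((Finset.card_union_le _ _).trans ?_)
    rw [Nat.card_Icc]
    simp only [Nat.add_sub_cancel]
    apply le_of_eq
    rfl
  have h7 : (NFu κ (1 + ε) u (2 ^ k) : ℝ) ≤ z + (Few κ ε u t k).card := by exact_mod_cast h6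
  have h8 : 0 < Real.exp ((1 - t) * ℓ) := Real.exp_pos _
  rw [h3] at h1
  nlinarith

set_option maxHeartbeats 4000000 in
theorem partE_J {u κ ε t c : ℝ} (N : ℕ) (hu : 2 < u) (huN : u ≤ N) (hN : 3 ≤ N) (hκ : 0 < κ) (hε : 0 < ε)
    (hf : ∀ η : ℝ, 0 < η → ∀ᶠ x : ℕ in atTop, (x : ℝ) ^ (1 - η) ≤ NFu κ (1 + ε) u x) (ht : 0 < t) (ht8 : t < 1 / 8)
    (hc : 0 < c) (hcκ : κ * c ≤ 1 - 8 * t) :
    ∀ᶠ k : ℕ in atTop, ∃ J : Finset ℕ, (∀ y ∈ J, k ≤ y ∧ y ≤ 2 ^ (k + 1)) ∧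
      (∀ y ∈ J, ∀ y' ∈ J, y < y' → y + H c k ≤ y') ∧
      ((k : ℝ) + 1) ^ 2 ≤ ∑ y ∈ J, av Nat.Prime (Du u) y (H c k) := by
  classical
  set c₁ := c + t / κ with hc₁
  have hc1 : c < c₁ := by
    have : 0 < t / κ := by positivity
    linarith
  have hc10 : 0 < c₁ := hc.trans hc1
  have hκc1 : κ * c₁ ≤ 1 - 7 * t := by
    have : κ * c₁ = κ * c + t := by
      rw [hc₁]
      field_simp
    linarith
  have f1 := H_le hc hc1
  have f2 := few_count' hf ht
  have hu0 : 0 ≤ u := by linarith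
  have h1t : 0 < 1 - t := by linarith
  have hsc : Tendsto (fun ℓ : ℝ => (1 - t) * ℓ) atTop atTop := tendsto_id.const_mul_atTop h1t
  have hsk := hsc.comp tendsto_logk
  have f3 := hsk.eventually (growth3 (u := u) (K := c₁ / (1 - t) ^ 2) (K' := min ε t) hu (lt_min hε ht))
  have f4 := tendsto_logk.eventually (growth2 (t := 3 * t) (by positivity) 27 (N + 2))
  have f5 := tendsto_logk.eventually (growth2 (t := 1) (by positivity) 1 N)
  have f6 := tendsto_logk.eventually (growth2 (t := 1 - t) h1t 3 1)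
  filter_upwards [f1, f2, f3, f4, f5, f6, tendsto_logk.eventually_ge_atTop (c₁ + 1)] with k f1 f2 f3 f4 f5 f6 f7
  simp only [Function.comp_apply] at f3
  set h := H c k with hh
  have hX0 : (0 : ℝ) < 2 ^ k := by positivity
  have eX : ((2 ^ k : ℕ) : ℝ) = 2 ^ k := by push_cast; rfl
  set ℓ := Real.log ((2 : ℝ) ^ k) with hℓ
  have eexp : Real.exp ℓ = 2 ^ k := Real.exp_log hX0
  have hl1 : 1 ≤ ℓ := by linarith
  have hl : 0 < ℓ := by linarith
  have hsimp : c₁ / (1 - t) ^ 2 * ((1 - t) * ℓ) ^ 2 = c₁ * ℓ ^ 2 := by field_simp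
  rw [hsimp] at f3
  have g8 : (k : ℝ) + 1 ≤ 3 * ℓ := by
    have h5 : ℓ = k * Real.log 2 := by rw [hℓ, Real.log_pow]
    have h6 := Real.log_two_gt_d9
    have h7 : (0 : ℝ) ≤ k := Nat.cast_nonneg k
    nlinarith
  rw [pow_one] at f6
  -- properties of members
  have m0 : ∀ n ∈ Few κ ε u t k, Real.exp ((1 - t) * ℓ) < n ∧ n ≤ 2 ^ k ∧
      (cntP Nat.Prime n ⌊(1 + ε) * (Real.log n) ^ u⌋₊ : ℝ) ≤ κ * (Real.log n) ^ (u - 1) := by
    intro n hn
    unfold Few at hn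
    rw [Finset.mem_filter, Finset.mem_Ioc] at hn
    refine ⟨?_, hn.1.2, hn.2⟩
    exact (Nat.floor_lt (Real.exp_pos _).le).1 hn.1.1
  have m1 : ∀ n ∈ Few κ ε u t k, k + 1 ≤ n := by
    intro n hn
    have h5 : ((k + 1 : ℕ) : ℝ) < n := by
      push_cast
      linarith [(m0 n hn).1]
    have h6 : k + 1 < n := by exact_mod_cast h5
    omega
  have m3 : ∀ n ∈ Few κ ε u t k, 3 ≤ n := by
    intro n hn
    have h5 : ((3 : ℕ) : ℝ) < n := by
      push_cast
      linarith [(m0 n hn).1]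
    have h6 : 3 < n := by exact_mod_cast h5
    omega
  have m2 : ∀ n ∈ Few κ ε u t k, (1 - t) * ℓ ≤ Real.log n ∧ Real.log n ≤ ℓ := by
    intro n hn
    have hn0 : (0 : ℝ) < n := lt_trans (Real.exp_pos _) (m0 n hn).1
    constructor
    · rw [Real.le_log_iff_exp_le hn0]
      exact (m0 n hn).1.le
    · apply Real.log_le_log hn0
      exact_mod_cast (m0 n hn).2.1
  have m4 : ∀ n ∈ Few κ ε u t k, (Du u n : ℝ) + h ≤ 2 * ℓ ^ N := by
    intro n hn
    have h5 := Du_le u n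
    have h6 : (Real.log n) ^ u ≤ ℓ ^ u := Real.rpow_le_rpow (Real.log_natCast_nonneg n) (m2 n hn).2 hu0
    have h7 : ℓ ^ u ≤ ℓ ^ (N : ℝ) := Real.rpow_le_rpow_of_exponent_le hl1 huN
    rw [Real.rpow_natCast] at h7
    have h9 : c₁ * ℓ ^ 2 ≤ ℓ ^ N := by
      have h10 : 0 ≤ ℓ ^ 2 := by positivity
      have h11 : ℓ ^ 3 ≤ ℓ ^ N := pow_le_pow_right₀ hl1 hN
      nlinarith
    linarith
  have m5 : ∀ n ∈ Few κ ε u t k, (Du u n : ℝ) ≤ ℓ ^ N := by
    intro n hn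
    have h5 := Du_le u n
    have h6 : (Real.log n) ^ u ≤ ℓ ^ u := Real.rpow_le_rpow (Real.log_natCast_nonneg n) (m2 n hn).2 hu0
    have h7 : ℓ ^ u ≤ ℓ ^ (N : ℝ) := Real.rpow_le_rpow_of_exponent_le hl1 huN
    rw [Real.rpow_natCast] at h7
    linarith
  have m6 : ∀ n ∈ Few κ ε u t k, Real.exp (-((1 - 4 * t) * ℓ)) ≤ av Nat.Prime (Du u) (n + Du u n) h := by
    intro n hn
    obtain ⟨l1, l2⟩ := m2 n hn
    have h0 : 0 < (1 - t) * ℓ := by positivity
    have hLn : 0 < Real.log n := by linarith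
    have h5 : ((1 - t) * ℓ) ^ u ≤ (Real.log n) ^ u := Real.rpow_le_rpow h0.le l1 hu0
    have h6 : 0 < ((1 - t) * ℓ) ^ u := Real.rpow_pos_of_pos h0 u
    have h7 : c₁ * ℓ ^ 2 + 1 ≤ ε * (Real.log n) ^ u := by
      refine f3.trans ?_
      exact mul_le_mul (min_le_left _ _) h5 h6.le hε.le
    have h8 : c₁ * ℓ ^ 2 + 1 ≤ t * (Real.log n) ^ u := by
      refine f3.trans ?_
      exact mul_le_mul (min_le_right _ _) h5 h6.le ht.le
    have key := av_few (κ := κ) (ε := ε) (δ := t) (h := h) hu0 (by linarith) (m3 n hn) (by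
      have := Nat.lt_floor_add_one ((1 + ε) * (Real.log n) ^ u)
      linarith) (m0 n hn).2.2 (by linarith)
    refine le_trans ?_ key
    apply Real.exp_le_exp.2
    apply neg_le_neg
    rw [div_div, div_le_iff₀ (by positivity)]
    have h9 : (1 - 7 * t) ≤ (1 - 4 * t) * (1 - t) ^ 2 := by
      nlinarith [sq_nonneg t, ht, mul_pos ht ht]
    calc κ * h ≤ κ * (c₁ * ℓ ^ 2) := by gcongr
      _ = (κ * c₁) * ℓ ^ 2 := by ring
      _ ≤ (1 - 7 * t) * ℓ ^ 2 := by gcongr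
      _ ≤ ((1 - 4 * t) * (1 - t) ^ 2) * ℓ ^ 2 := by gcongr
      _ = (1 - 4 * t) * ℓ * (((1 - t) * ℓ) * (1 - t)) := by ring
      _ ≤ (1 - 4 * t) * ℓ * (Real.log n * (1 - t)) := by
        have : 0 ≤ (1 - 4 * t) * ℓ := mul_nonneg (by linarith) hl.le
        gcongr
  -- a residue class
  set W := ⌈2 * ℓ ^ N⌉₊ with hW
  have hWge : 2 * ℓ ^ N ≤ W := Nat.le_ceil _
  have hWle : (W : ℝ) ≤ 3 * ℓ ^ N := by
    have h5 : (W : ℝ) < 2 * ℓ ^ N + 1 := Nat.ceil_lt_add_one (by positivity)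
    have h6 : 1 ≤ ℓ ^ N := one_le_pow₀ hl1
    linarith
  have hW0 : (0 : ℝ) < W := by
    have : 0 < ℓ ^ N := by positivity
    linarith
  have hW0' : 0 < W := by exact_mod_cast hW0
  obtain ⟨r, hr, hrc⟩ := Finset.exists_le_card_fiber_of_nsmul_le_card_of_maps_to
    (s := Few κ ε u t k) (t := range W) (f := fun n => n % W) (b := (Few κ ε u t k).card / (W : ℝ))
    (fun n _ => Finset.mem_range.2 (Nat.mod_lt _ hW0')) ⟨0, Finset.mem_range.2 hW0'⟩ (by
      rw [Finset.card_range, nsmul_eq_mul]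
      apply le_of_eq
      field_simp)
  set F := (Few κ ε u t k).filter (fun n => n % W = r) with hF
  have hFm : ∀ n ∈ F, n ∈ Few κ ε u t k ∧ n % W = r := fun n hn => Finset.mem_filter.1 hn
  have hmono : ∀ n ∈ F, ∀ n' ∈ F, n < n' → n + Du u n < n' + Du u n' := by
    intro n hn n' hn' hlt
    have := Du_mono hu0 (by have := m3 n (hFm n hn).1; omega : 0 < n) hlt.le
    omega
  have hinj : Set.InjOn (fun n => n + Du u n) (F : Set ℕ) := by
    intro a ha b hb hab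
    simp only at hab
    rcases lt_trichotomy a b with h5 | h5 | h5
    · have := hmono a ha b hb h5
      omega
    · exact h5
    · have := hmono b hb a ha h5
      omega
  refine ⟨F.image (fun n => n + Du u n), ?_, ?_, ?_⟩
  · intro y hy
    rw [Finset.mem_image] at hy
    obtain ⟨n, hn, rfl⟩ := hy
    have h5 := (hFm n hn).1
    have h6 := m1 n h5
    refine ⟨by omega, ?_⟩
    have h7 : ((n + Du u n : ℕ) : ℝ) ≤ ((2 ^ (k + 1) : ℕ) : ℝ) := by
      push_cast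
      have h8 : (n : ℝ) ≤ 2 ^ k := by exact_mod_cast (m0 n h5).2.1
      have h9 := m5 n h5
      rw [one_mul, one_mul, eexp] at f5
      rw [pow_succ]
      linarith
    exact_mod_cast h7
  · intro y hy y' hy' hyy
    rw [Finset.mem_image] at hy hy'
    obtain ⟨n, hn, rfl⟩ := hy
    obtain ⟨n', hn', rfl⟩ := hy'
    have h5 : n < n' := by
      by_contra hcon
      push Not at hcon
      rcases hcon.lt_or_eq with h6 | h6
      · have := hmono n' hn' n hn h6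
        omega
      · subst h6
        exact lt_irrefl _ hyy
    have h6 : n + W ≤ n' := by
      have h7 : n' % W = n % W := by rw [(hFm n hn).2, (hFm n' hn').2]
      have h8 : W ∣ n' - n := (Nat.modEq_iff_dvd' h5.le).1 h7.symm
      have := Nat.le_of_dvd (by omega) h8
      omega
    have h7 : Du u n + h ≤ W := by
      have h8 : ((Du u n + h : ℕ) : ℝ) ≤ (W : ℝ) := by
        push_cast
        linarith [m4 n (hFm n hn).1]
      exact_mod_cast h8
    omega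
  · rw [Finset.sum_image hinj]
    have h5 : ∀ n ∈ F, Real.exp (-((1 - 4 * t) * ℓ)) ≤ av Nat.Prime (Du u) (n + Du u n) h :=
      fun n hn => m6 n (hFm n hn).1
    refine le_trans ?_ (Finset.sum_le_sum h5)
    rw [Finset.sum_const, nsmul_eq_mul]
    have h6 : Real.exp ((1 - t) * ℓ) / W ≤ (F.card : ℝ) := by
      refine le_trans ?_ hrc
      gcongr
    have h7 : Real.exp ((1 - t) * ℓ) / W * Real.exp (-((1 - 4 * t) * ℓ)) = Real.exp (3 * t * ℓ) / W := by
      rw [div_mul_eq_mul_div, ← Real.exp_add]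
      congr 2
      ring
    calc ((k : ℝ) + 1) ^ 2 ≤ (3 * ℓ) ^ 2 := by gcongr
      _ ≤ Real.exp (3 * t * ℓ) / W := by
        rw [le_div_iff₀ hW0]
        calc (3 * ℓ) ^ 2 * (W : ℝ) ≤ (3 * ℓ) ^ 2 * (3 * ℓ ^ N) := by gcongr
          _ = 27 * ℓ ^ (N + 2) := by ring
          _ ≤ _ := f4
      _ = Real.exp ((1 - t) * ℓ) / W * Real.exp (-((1 - 4 * t) * ℓ)) := h7.symm
      _ ≤ _ := by gcongr

theorem partE {u : ℝ} {Ω : Type} [MeasurableSpace Ω] {μ : Measure Ω} {X : ℕ → Ω → ℕ} (hX : Disp μ X (Du u))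
    (hu : 2 < u) {E : ℝ} (hE0 : 0 < E)
    (hf : ∀ κ C : ℝ, 0 < C → C * E < κ → ∀ η : ℝ, 0 < η → ∀ᶠ x : ℕ in atTop,
      (x : ℝ) ^ (1 - η) ≤ NFu κ C u x)
    {c : ℝ} (hc : c * E < 1) :
    ∀ᵐ ω ∂μ, ∀ᶠ x : ℕ in atTop, c * Real.log x ^ 2 ≤ (G (moved Nat.Prime X ω) x : ℝ) := by
  have h1 : max c 0 < 1 / E := by
    apply max_lt
    · rwa [lt_div_iff₀ hE0]
    · positivity
  obtain ⟨c', hc1, hc2⟩ := exists_between h1
  have hc0 : 0 < c' := lt_of_le_of_lt (le_max_right _ _) hc1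
  have hcc : c ≤ c' := (le_max_left c 0).trans hc1.le
  have h2 : E < 1 / c' := by
    rw [lt_div_iff₀ hE0] at hc2
    rw [lt_div_iff₀ hc0]
    linarith
  obtain ⟨κ, hκ1, hκ2⟩ := exists_between h2
  have hκ : 0 < κ := hE0.trans hκ1
  rw [lt_div_iff₀ hc0] at hκ2
  obtain ⟨t, ht, ht8, htc⟩ : ∃ t : ℝ, 0 < t ∧ t < 1 / 8 ∧ κ * c' ≤ 1 - 8 * t := by
    refine ⟨min ((1 - κ * c') / 8) (1 / 16), ?_, ?_, ?_⟩
    · apply lt_min
      · linarith
      · norm_num
    · exact lt_of_le_of_lt (min_le_right _ _) (by norm_num)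
    · have := min_le_left ((1 - κ * c') / 8) (1 / 16)
      linarith
  have hε : 0 < (κ / E - 1) / 2 := by
    have : 1 < κ / E := by rwa [one_lt_div hE0]
    linarith
  have hεE : (1 + (κ / E - 1) / 2) * E < κ := by
    have : (1 + (κ / E - 1) / 2) * E = (κ + E) / 2 := by
      field_simp
      ring
    rw [this]
    linarith
  have hJ := partE_J (max 3 ⌈u⌉₊) hu (by
    push_cast
    exact (Nat.le_ceil u).trans (le_max_right _ _)) (le_max_left _ _) hκ hε
    (hf κ (1 + (κ / E - 1) / 2) (by linarith) hεE) ht ht8 hc0 htc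
  obtain ⟨J, hJ⟩ := hJ.choice
  have key := ae_lower hX primes_infinite hc0.le J (H c') (hJ.mono fun k hk => hk.1)
    (hJ.mono fun k hk => hk.2.1) (Eventually.of_forall fun k => H_ge _ k) (hJ.mono fun k hk => hk.2.2)
  filter_upwards [key] with ω hω
  filter_upwards [hω] with x hx
  refine le_trans ?_ hx
  gcongr

theorem cnt_window (n Y : ℕ) : cntP Nat.Prime n Y = ((Ioc n (n + Y)).filter Nat.Prime).card := by
  classical
  rw [cntP_eq]
  refine Finset.card_bij (fun h _ => n + h) ?_ ?_ ?_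
  · intro h hh
    rw [Finset.mem_filter, Finset.mem_Icc] at hh
    rw [Finset.mem_filter, Finset.mem_Ioc]
    exact ⟨by omega, hh.2⟩
  · intro a _ b _ hab
    omega
  · intro b hb
    rw [Finset.mem_filter, Finset.mem_Ioc] at hb
    exact ⟨b - n, by rw [Finset.mem_filter, Finset.mem_Icc]; exact ⟨by omega, by rw [show n + (b - n) = b by omega]; exact hb.2⟩, by omega⟩

/-- For every `u > 2` there is a constant `K > 1` such that the largest gap for the displacements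
`⌊(log q)^u⌋` is almost surely at least `(K - o(1)) log² x`. -/
theorem partE_all {u : ℝ} (hu : 2 < u) : ∃ K : ℝ, 1 < K ∧
    ∀ {Ω : Type} [MeasurableSpace Ω] {μ : Measure Ω} {X : ℕ → Ω → ℕ}, Disp μ X (Du u) →
    ∀ c : ℝ, c < K → ∀ᵐ ω ∂μ, ∀ᶠ x : ℕ in atTop, c * Real.log x ^ 2 ≤ (G (moved Nat.Prime X ω) x : ℝ) := by
  classical
  obtain ⟨κ₀, h0, h1, hm⟩ := Pool.Agent.Q225.MG.mat Pool.Agent.Q120.MG.def_holds u hu.le
  refine ⟨1 / κ₀, (one_lt_div h0).2 h1, ?_⟩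
  intro Ω _ μ X hX c hc
  refine partE hX hu h0 ?_ (by rwa [lt_div_iff₀ h0] at hc)
  intro κ C hC hκ η hη
  filter_upwards [hm C η hC hη] with x hx
  refine hx.trans ?_
  unfold NFu
  norm_cast
  refine Finset.card_le_card ?_
  intro n hn
  rw [Finset.mem_filter] at hn ⊢
  refine ⟨hn.1, ?_⟩
  rw [cnt_window]
  refine le_trans (by exact_mod_cast hn.2) ?_
  have h2 : 0 ≤ (Real.log n) ^ (u - 1) := Real.rpow_nonneg (Real.log_natCast_nonneg n) _
  nlinarith

end Pool.Agent.Q268.DP
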