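import Mathlib
import Pool.Agent.Q268.DP.Basic

/-!
Existence of families of independent uniform displacements.
-/

set_option autoImplicit false

namespace Pool.Agent.Q268.DP

open Filter Finset MeasureTheory ProbabilityTheory
open scoped ENNReal Topology

/-- the uniform distribution on `{0, …, n}` -/
noncomputable def uni (n : ℕ) : Measure ℕ :=
  ∑ d ∈ range (n + 1), ENNReal.ofReal (1 / ((n : ℝ) + 1)) • Measure.dirac d

theorem uni_apply (n : ℕ) (s : Set ℕ) :
    uni n s = ∑ d ∈ range (n + 1), ENNReal.ofReal (1 / ((n : ℝ) + 1)) * s.indicator (fun _ => 1) d := by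
  unfold uni
  rw [Measure.finsetSum_apply]
  refine Finset.sum_congr rfl fun d _ => ?_
  rw [Measure.smul_apply, Measure.dirac_apply, smul_eq_mul]
  rfl

instance (n : ℕ) : IsProbabilityMeasure (uni n) := ⟨by
  rw [uni_apply]
  simp only [Set.indicator_univ, mul_one, Finset.sum_const, Finset.card_range, nsmul_eq_mul]
  rw [← ENNReal.ofReal_natCast, ← ENNReal.ofReal_mul (by positivity)]
  push_cast
  rw [mul_one_div_cancel (by positivity)]
  exact ENNReal.ofReal_one⟩

theorem uni_singleton (n d : ℕ) : uni n {d} = if d ≤ n then ENNReal.ofReal (1 / ((n : ℝ) + 1)) else 0 := by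
  rw [uni_apply]
  have h : ∀ e ∈ range (n + 1), ENNReal.ofReal (1 / ((n : ℝ) + 1)) * ({d} : Set ℕ).indicator (fun _ => 1) e =
      if e = d then ENNReal.ofReal (1 / ((n : ℝ) + 1)) else 0 := by
    intro e _
    by_cases h : e = d
    · subst h
      simp
    · simp [h]
  rw [Finset.sum_congr rfl h, Finset.sum_ite_eq']
  simp only [Finset.mem_range]
  congr 1
  simp [Nat.lt_succ_iff]

theorem exists_disp (D : ℕ → ℕ) : ∃ μ : Measure (ℕ → ℕ), Disp μ (fun q ω => ω q) D := by
  refine ⟨Measure.infinitePi (fun q => uni (D q)), ?_, ?_, ?_⟩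
  · intro q
    exact measurable_pi_apply q
  · exact iIndepFun_infinitePi (P := fun q => uni (D q)) (X := fun _ => id) (fun _ => measurable_id)
  · intro q d
    have h2 : {ω : ℕ → ℕ | ω q = d} = (fun ω : ℕ → ℕ => ω q) ⁻¹' {d} := rfl
    rw [h2, (measurePreserving_eval_infinitePi (fun q => uni (D q)) q).measure_preimage
      (measurableSet_singleton d).nullMeasurableSet, uni_singleton]

end Pool.Agent.Q268.DP
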